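import Pool.Agent.W519.E.Defs
import Pool.Agent.H977R3.CM.Aut

/-!
# Subspaces stable under the automorphisms of the complex numbers over the algebraic numbers
-/

set_option autoImplicit false
set_option linter.unusedSectionVars false

namespace Pool.Agent.W519.E

open Polynomial

noncomputable section

/-- a transcendental number is moved by an automorphism over the algebraic numbers -/
theorem exists_moves {x : ℂ} (hx : ¬ IsAlgebraic ℚ x) :
    ∃ σ : ℂ ≃+* ℂ, (∀ a : Kb, σ a = a) ∧ σ x ≠ x := by
  have hxt : Transcendental Kb x := by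
    intro h
    apply hx
    have : Algebra.IsAlgebraic ℚ Kb := algebraicClosure.isAlgebraic ℚ ℂ
    exact h.restrictScalars ℚ
  have hinj : Function.Injective (aeval x : Kb[X] →ₐ[Kb] ℂ).toRingHom :=
    transcendental_iff_injective.1 hxt
  let K := FractionRing Kb[X]
  let j : K →+* ℂ := IsFractionRing.lift hinj
  let g : K ≃+* K := IsFractionRing.ringEquivOfRingEquiv
    (algEquivAevalXAddC (1 : Kb)).toRingEquiv
  obtain ⟨σ, hσ⟩ := Pool.Agent.H977R3.CM.exists_aut j g
  have hj : ∀ p : Kb[X], j (algebraMap Kb[X] K p) = aeval x p := fun p =>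
    IsFractionRing.lift_algebraMap hinj p
  have hg : ∀ p : Kb[X], g (algebraMap Kb[X] K p) = algebraMap Kb[X] K
      (algEquivAevalXAddC (1 : Kb) p) := fun p =>
    IsFractionRing.ringEquivOfRingEquiv_algebraMap _ p
  have key : ∀ p : Kb[X], σ (aeval x p) = aeval x (algEquivAevalXAddC (1 : Kb) p) := by
    intro p
    rw [← hj, hσ, hg, hj]
  refine ⟨σ, fun a => ?_, ?_⟩
  · have h1 := key (C a)
    have h2 : algEquivAevalXAddC (1 : Kb) (C a : Kb[X]) = C a := by
      simp [algEquivAevalXAddC]
    rw [h2, aeval_C] at h1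
    exact h1
  · have h1 := key X
    have h2 : algEquivAevalXAddC (1 : Kb) (X : Kb[X]) = X + C 1 := by
      simp [algEquivAevalXAddC]
    rw [h2, aeval_X, map_add, aeval_X, aeval_C, map_one] at h1
    rw [h1]
    simp

/-- a number fixed by the automorphisms over the algebraic numbers is algebraic -/
theorem alg_of_fixed {x : ℂ} (h : ∀ σ : ℂ ≃+* ℂ, (∀ a : Kb, σ a = a) → σ x = x) :
    IsAlgebraic ℚ x := by
  by_contra hx
  obtain ⟨σ, h1, h2⟩ := exists_moves hx
  exact h2 (h σ h1)

variable {N : Type*} [Fintype N]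

/-- stability under the automorphisms over the algebraic numbers -/
def GStable (M : Submodule ℂ (N → ℂ)) : Prop :=
  ∀ σ : ℂ ≃+* ℂ, (∀ a : Kb, σ a = a) → ∀ w ∈ M, (fun i => σ (w i)) ∈ M

/-- a stable subspace is spanned by vectors with algebraic coordinates -/
theorem gstable_span (n : ℕ) : ∀ M : Submodule ℂ (N → ℂ), Module.finrank ℂ M = n → GStable M →
    M ≤ Submodule.span ℂ {w | w ∈ M ∧ ∀ i, IsAlgebraic ℚ (w i)} := by
  classical
  induction n with
  | zero =>
    intro M hM _
    rw [Submodule.finrank_eq_zero.1 hM]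
    exact bot_le
  | succ n ih =>
    intro M hM hD
    -- a nonzero vector with minimal support
    have hex : ∃ k, ∃ w ∈ M, w ≠ 0 ∧ (Finset.univ.filter fun i => w i ≠ 0).card = k := by
      have : M ≠ ⊥ := by
        rintro rfl
        rw [finrank_bot] at hM
        omega
      obtain ⟨w, hw, hw0⟩ := Submodule.exists_mem_ne_zero_of_ne_bot this
      exact ⟨_, w, hw, hw0, rfl⟩
    obtain ⟨w, hw, hw0, hcard⟩ := Nat.find_spec hex
    have hmin : ∀ v ∈ M, v ≠ 0 → (Finset.univ.filter fun i => w i ≠ 0).card ≤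
        (Finset.univ.filter fun i => v i ≠ 0).card := by
      intro v hv hv0
      rw [hcard]
      exact Nat.find_min' hex ⟨v, hv, hv0, rfl⟩
    obtain ⟨i0, hi0⟩ := Function.ne_iff.1 hw0
    rw [Pi.zero_apply] at hi0
    let u : N → ℂ := (w i0)⁻¹ • w
    have hu : u ∈ M := M.smul_mem _ hw
    have hui : u i0 = 1 := inv_mul_cancel₀ hi0
    have husupp : ∀ i, u i ≠ 0 ↔ w i ≠ 0 := by
      intro i
      simp only [u, Pi.smul_apply, smul_eq_mul, ne_eq, mul_eq_zero, inv_eq_zero, hi0, false_or]
    have hualg : ∀ i, IsAlgebraic ℚ (u i) := by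
      intro i
      apply alg_of_fixed
      intro σ hσ
      have h1 : (fun i => σ (u i)) - u ∈ M := M.sub_mem (hD σ hσ u hu) hu
      have h2 : (fun i => σ (u i)) - u = 0 := by
        by_contra hne
        have h3 := hmin _ h1 hne
        have h4 : (Finset.univ.filter fun i => ((fun i => σ (u i)) - u) i ≠ 0) ⊂
            Finset.univ.filter fun i => w i ≠ 0 := by
          rw [Finset.ssubset_iff_of_subset]
          · refine ⟨i0, by simpa using hi0, ?_⟩
            rw [Finset.mem_filter]
            rintro ⟨_, h⟩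
            apply h
            rw [Pi.sub_apply, hui, map_one, sub_self]
          · intro i hi
            rw [Finset.mem_filter] at hi ⊢
            refine ⟨Finset.mem_univ _, fun h0 => hi.2 ?_⟩
            have : u i = 0 := by
              by_contra h5
              exact ((husupp i).1 h5) h0
            rw [Pi.sub_apply, this, map_zero, sub_self]
        exact absurd h3 (not_le.2 (Finset.card_lt_card h4))
      exact sub_eq_zero.1 (congrFun h2 i)
    -- the complement
    let M1 : Submodule ℂ (N → ℂ) := M ⊓ LinearMap.ker (LinearMap.proj (R := ℂ) (φ := fun _ => ℂ) i0)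
    have hM1 : ∀ v, v ∈ M1 ↔ v ∈ M ∧ v i0 = 0 := fun v => by
      rw [Submodule.mem_inf, LinearMap.mem_ker]
      rfl
    have hD1 : GStable M1 := by
      intro σ hσ v hv
      rw [hM1] at hv ⊢
      exact ⟨hD σ hσ v hv.1, by rw [hv.2, map_zero]⟩
    have hlt : Module.finrank ℂ M1 = n := by
      have h1 : M = (ℂ ∙ u) ⊔ M1 := by
        apply le_antisymm
        · intro v hv
          rw [Submodule.mem_sup]
          refine ⟨v i0 • u, Submodule.smul_mem _ _ (Submodule.mem_span_singleton_self u),
            v - v i0 • u, ?_, by abel⟩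
          rw [hM1]
          refine ⟨M.sub_mem hv (M.smul_mem _ hu), ?_⟩
          rw [Pi.sub_apply, Pi.smul_apply, hui, smul_eq_mul, mul_one, sub_self]
        · rw [sup_le_iff]
          refine ⟨?_, inf_le_left⟩
          rw [Submodule.span_singleton_le_iff_mem]
          exact hu
      have h2 : Disjoint (ℂ ∙ u) M1 := by
        rw [Submodule.disjoint_def]
        intro v hv hv1
        obtain ⟨c, rfl⟩ := Submodule.mem_span_singleton.1 hv
        rw [hM1, Pi.smul_apply, hui, smul_eq_mul, mul_one] at hv1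
        rw [hv1.2, zero_smul]
      have h3 := Submodule.finrank_sup_add_finrank_inf_eq (ℂ ∙ u) M1
      rw [← h1, hM, disjoint_iff.1 h2, finrank_bot, finrank_span_singleton] at h3
      · omega
      · intro h0
        rw [h0, Pi.zero_apply] at hui
        exact zero_ne_one hui
    have h4 := ih M1 hlt hD1
    intro v hv
    have h5 : v - v i0 • u ∈ M1 := by
      rw [hM1]
      refine ⟨M.sub_mem hv (M.smul_mem _ hu), ?_⟩
      rw [Pi.sub_apply, Pi.smul_apply, hui, smul_eq_mul, mul_one, sub_self]
    have h6 : v - v i0 • u ∈ Submodule.span ℂ {w | w ∈ M ∧ ∀ i, IsAlgebraic ℚ (w i)} := by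
      refine Submodule.span_mono ?_ (h4 h5)
      rintro w ⟨hw1, hw2⟩
      exact ⟨((hM1 w).1 hw1).1, hw2⟩
    have h7 : v = v i0 • u + (v - v i0 • u) := by abel
    rw [h7]
    exact Submodule.add_mem _ (Submodule.smul_mem _ _ (Submodule.subset_span ⟨hu, hualg⟩)) h6

/-- functionals with algebraic values map a stable subspace to itself -/
theorem gstable_lam {M : Submodule ℂ (N → ℂ)} (hM : GStable M) (lam : ℂ →ₗ[Kb] Kb) {w : N → ℂ}
    (hw : w ∈ M) : (fun i => ((lam (w i) : Kb) : ℂ)) ∈ M := by
  have h1 := gstable_span _ M rfl hM hw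
  clear hw
  -- general elements of the span
  obtain ⟨s, f, hs, hf⟩ : ∃ (s : Finset (N → ℂ)) (f : (N → ℂ) → ℂ),
      (∀ v ∈ s, v ∈ M ∧ ∀ i, IsAlgebraic ℚ (v i)) ∧ w = ∑ v ∈ s, f v • v := by
    obtain ⟨c, t, ht, hsum, htw⟩ := (Submodule.mem_span_iff_exists_finset_subset).1 h1
    exact ⟨t, c, fun v hv => ht hv, htw.symm⟩
  have h2 : (fun i => ((lam (w i) : Kb) : ℂ)) = ∑ v ∈ s, ((lam (f v) : Kb) : ℂ) • v := by
    funext i
    rw [hf, Finset.sum_apply, Finset.sum_apply, map_sum]
    push_cast
    refine Finset.sum_congr rfl fun v hv => ?_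
    have hmem : v i ∈ Kb := mem_algebraicClosure_iff.2 ((hs v hv).2 i)
    have h3 : (f v • v) i = (⟨v i, hmem⟩ : Kb) • f v := by
      rw [Pi.smul_apply, smul_eq_mul, mul_comm]
      rfl
    rw [h3, map_smul, Pi.smul_apply, smul_eq_mul, smul_eq_mul, mul_comm]
    rfl
  rw [h2]
  exact M.sum_mem fun v hv => M.smul_mem _ (hs v hv).1

end

end Pool.Agent.W519.E
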