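import Pool.Agent.W519.E.Defs
import Pool.Agent.W537.TT.K3

/-!
# Statements of the parts of the proof
-/

set_option autoImplicit false

namespace Pool.Agent.W519.E

open Matrix Pool.Agent.W537.TT

noncomputable section

/-- the block diagonal matrix -/
def big {S : Type} [DecidableEq S] (x : V S) :
    Matrix (Option (S × Fin 2)) (Option (S × Fin 2)) ℂ :=
  fun a b => match a, b with
    | none, none => x.1
    | some p, some q => if p.1 = q.1 then x.2 p.1 p.2 q.2 else 0
    | _, _ => 0

/-- (Rosenlicht) logarithmic derivatives and linearly independent algebraic numbers -/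
def ROS : Prop := ∀ (m : ℕ) (e : Fin m → Kb), LinearIndependent ℚ e → ∀ u : Fin m → ℂ,
  (∀ i, u i ≠ 0) → (∀ D : Derivation ℤ ℂ ℂ, ∑ i, (e i : ℂ) * (D (u i) / u i) = 0) →
    ∀ i, IsAlgebraic ℚ (u i)

/-- the closure of the block diagonal matrix -/
def CLO : Prop := ∀ (S : Type) [Fintype S] [DecidableEq S] (c : V S), Inv c →
  (∀ x : V S, x ∈ clo c ↔ vc (big x) ∈ clos (vc (big c))) ∧
  (∀ M : Matrix (Option (S × Fin 2)) (Option (S × Fin 2)) ℂ, vc M ∈ clos (vc (big c)) →
    ∃ x : V S, M = big x) ∧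
  (∀ M : Matrix (Option (S × Fin 2)) (Option (S × Fin 2)) ℂ,
    M ∈ Pool.Agent.W537.TT.logSpace (big c) ↔ ∃ x ∈ logSpace c, M = big x)

/-- the logarithmic derivatives are stable if the closure is a torsor -/
def TORA : Prop := CLO → ∀ (S : Type) [Fintype S] [DecidableEq S]
  (g : (ℂ ≃+* ℂ) →* Equiv.Perm S) (c : V S), Inv c → IsTorsor g c → IsRational g (logSpace c)

/-- the closure is a torsor if the logarithmic derivatives are stable -/
def TORB : Prop := CLO → ∀ (S : Type) [Fintype S] [DecidableEq S]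
  (g : (ℂ ≃+* ℂ) →* Equiv.Perm S) (c : V S), Inv c →
  AlgSpan (Pool.Agent.W537.TT.logSpace (big c)) → IsRational g (logSpace c) → IsTorsor g c

end

end Pool.Agent.W519.E
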