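import Pool.Agent.W519.E.Pl
import Pool.Agent.W519.E.Stm
import Pool.Agent.W519.E.Dsc

/-!
# The center of the Lie algebra
-/

set_option autoImplicit false
set_option linter.unusedSectionVars false
set_option linter.unusedVariables false

namespace Pool.Agent.W519.E

open NumberField Pool.Agent.H204R3.CM Pool.Agent.W547.KB Pool.Agent.W537.PC Matrix
open Pool.Agent.W519.Q hiding Kb sL mem_sL NoEig subdirect PeriodSystem Semisimple SemisimpleAt
  HomHodge IC inter_ic pm ld pm_mul_ld ld_inj ld_pol ld_sq EV COM ev_of EndHodge no_split noEig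
  comm_all cl_det cl_twist main_act main_field' DetL detL
open Pool.Agent.W519.G (cl cl_mul cl_div cl_eq_zero cl_pow cl_zpow cl_prod tp eq_of_smul
  eq_zero_of_smul smul_tp_eq_zero Quo two_pi_ne cl_inv)

noncomputable section

/-- algebraic numbers are combinations of linearly independent ones with integer coefficients, up to
a common denominator -/
theorem exists_indep {N : Type} [Fintype N] (a : N → Kb) :
    ∃ (m : ℕ) (e : Fin m → Kb) (n : Fin m → N → ℤ) (d : ℤ), d ≠ 0 ∧ LinearIndependent ℚ e ∧
      ∀ o, (d : Kb) * a o = ∑ k, (n k o : Kb) * e k := by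
  classical
  let W : Submodule ℚ Kb := Submodule.span ℚ (Set.range a)
  have : FiniteDimensional ℚ W := FiniteDimensional.span_of_finite ℚ (Set.finite_range a)
  let β := Module.finBasis ℚ W
  let m := Module.finrank ℚ W
  have hmem : ∀ o, a o ∈ W := fun o => Submodule.subset_span ⟨o, rfl⟩
  let q : N → Fin m → ℚ := fun o k => β.repr ⟨a o, hmem o⟩ k
  obtain ⟨d, hd, hdq⟩ : ∃ d : ℤ, d ≠ 0 ∧ ∀ o k, ∃ z : ℤ, (d : ℚ) * q o k = z := by
    refine ⟨∏ x : N × Fin m, ((q x.1 x.2).den : ℤ), ?_, fun o k => ?_⟩
    · exact Finset.prod_ne_zero_iff.2 fun x _ => by exact_mod_cast (q x.1 x.2).den_nz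
    · refine ⟨(∏ x ∈ Finset.univ.erase (o, k), ((q x.1 x.2).den : ℤ)) * (q o k).num, ?_⟩
      rw [← Finset.mul_prod_erase Finset.univ (fun x : N × Fin m => ((q x.1 x.2).den : ℤ))
        (Finset.mem_univ (o, k))]
      push_cast
      have h1 : ((q o k).den : ℚ) * q o k = (q o k).num := by
        rw [mul_comm]
        exact (q o k).mul_den_eq_num
      rw [mul_comm ((q o k).den : ℚ), mul_assoc, h1]
  choose z hz using hdq
  refine ⟨m, fun k => (β k : Kb), fun k o => z o k, d, hd, ?_, fun o => ?_⟩
  · have h1 := β.linearIndependent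
    exact h1.map' W.subtype (Submodule.ker_subtype W)
  · have h1 : a o = ∑ k, q o k • (β k : Kb) := by
      have h2 := congrArg (fun w : W => (w : Kb)) (β.sum_repr ⟨a o, hmem o⟩)
      simp only [Submodule.coe_sum, Submodule.coe_smul] at h2
      exact h2.symm
    rw [h1, Finset.mul_sum]
    refine Finset.sum_congr rfl fun k _ => ?_
    have h3 : ((z o k : ℤ) : Kb) = ((d : ℚ) * q o k : ℚ) := by
      rw [hz]
      push_cast
      rfl
    rw [h3, Algebra.smul_def, ← mul_assoc]
    congr 1
    push_cast
    rfl

variable {L : Type} [Field L] [NumberField L] [IsCMField L] [IsGalois ℚ L]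
variable {I : Type} [Fintype I]
variable {P : PerSys L} {A : I → HS L}

/-- the traces -/
def trv (x : V (Sl I L)) : Option (Sl I L) → ℂ := fun o => o.elim x.1 fun s => (x.2 s).trace

/-- the monomial of the determinants -/
def mon (P : PerSys L) (A : I → HS L) (n : Option (Sl I L) → ℤ) : ℂ :=
  ∏ o, (o.elim tau fun s => (P.per (A s.1) s.2).det) ^ n o

lemma mon_factor_ne (hA : ∀ i, P.IsAV (A i)) (o : Option (Sl I L)) :
    (o.elim tau fun s => (P.per (A s.1) s.2).det) ≠ 0 := by
  cases o with
  | none => exact tau_ne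
  | some s => exact P.det_ne _ (hA _) _

lemma mon_ne (hA : ∀ i, P.IsAV (A i)) (n : Option (Sl I L) → ℤ) : mon P A n ≠ 0 :=
  Finset.prod_ne_zero_iff.2 fun o _ => zpow_ne_zero _ (mon_factor_ne hA o)

lemma lg_mon (hA : ∀ i, P.IsAV (A i)) (n : Option (Sl I L) → ℤ) (D : Dv) :
    lg D (mon P A n) = ∑ o, (n o : ℂ) * trv (D tau / tau, ld P A D) o := by
  classical
  rw [mon, lg_prod D _ _ (fun o => zpow_ne_zero _ (mon_factor_ne hA o))]
  refine Finset.sum_congr rfl fun o _ => ?_
  rw [lg_zpow D (mon_factor_ne hA o)]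
  congr 1
  cases o with
  | none => rfl
  | some s => exact lg_det0 (hA _) D _

/-- a relation between the traces which is stable under conjugation holds for the types -/
theorem rel_types (hL : IsAbelian L) (hW : Wuestholz P) (hA : ∀ i, P.IsAV (A i))
    (n : Option (Sl I L) → ℤ)
    (h : ∀ (τ : ℂ ≃+* ℂ) (D : Dv), (n none : ℂ) * (D tau / tau) +
      ∑ s : Sl I L, (n (some s) : ℂ) * (ld0 P (A s.1) D (act τ s.2)).trace = 0) :
    n none + ∑ s : Sl I L, n (some s) * rk (A s.1) s.2 = 0 := by
  classical
  have h1 := main_act (pl P) (detL hW) hL (ι := Sl I L ⊕ Sl I L)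
    (Sum.elim (fun s => ⟨Ph1 (A s.1), ph1 _⟩) (fun s => ⟨Ph2 (A s.1), ph2 _⟩))
    (Sum.elim (fun s => s.2) (fun s => s.2)) (Sum.elim (fun s => n (some s)) (fun s => n (some s)))
    (- n none) (by
      intro τ
      rw [Fintype.sum_sum_type, ← Finset.sum_add_distrib]
      have h2 : ∀ s : Sl I L, n (some s) • (pl P).c ⟨Ph1 (A s.1), ph1 _⟩ (act τ s.2) +
          n (some s) • (pl P).c ⟨Ph2 (A s.1), ph2 _⟩ (act τ s.2) =
          n (some s) • cl (P.per (A s.1) (act τ s.2)).det := by
        intro s
        rw [← smul_add, ← cl_det (hA s.1)]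
      refine (Finset.sum_congr rfl fun s _ => h2 s).trans ?_
      have hne : ∀ s : Sl I L, (P.per (A s.1) (act τ s.2)).det ≠ 0 := fun s => P.det_ne _ (hA _) _
      have h3 : ∀ s : Sl I L, n (some s) • cl (P.per (A s.1) (act τ s.2)).det =
          cl ((P.per (A s.1) (act τ s.2)).det ^ n (some s)) := fun s => (cl_zpow (hne s) _).symm
      rw [Finset.sum_congr rfl fun s _ => h3 s, ← cl_prod Finset.univ _ (fun s _ =>
        zpow_ne_zero _ (hne s)), ← tau_cl, ← cl_zpow tau_ne]
      refine cl_eq_of_lg (Finset.prod_ne_zero_iff.2 fun s _ => zpow_ne_zero _ (hne s))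
        (zpow_ne_zero _ tau_ne) fun D => ?_
      rw [lg_prod D _ _ (fun s => zpow_ne_zero _ (hne s)), lg_zpow D tau_ne]
      have h4 := h τ D
      have h5 : ∀ s : Sl I L, lg D ((P.per (A s.1) (act τ s.2)).det ^ n (some s)) =
          (n (some s) : ℂ) * (ld0 P (A s.1) D (act τ s.2)).trace := by
        intro s
        rw [lg_zpow D (hne s), lg_det0 (hA _)]
      rw [Finset.sum_congr rfl fun s _ => h5 s, lg]
      push_cast
      linear_combination h4) (RingEquiv.refl ℂ)
  rw [Fintype.sum_sum_type, ← Finset.sum_add_distrib] at h1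
  have h2 : ∀ s : Sl I L, n (some s) * ind (⟨Ph1 (A s.1), ph1 _⟩ : CMT L) (RingEquiv.refl ℂ) s.2 +
      n (some s) * ind (⟨Ph2 (A s.1), ph2 _⟩ : CMT L) (RingEquiv.refl ℂ) s.2 =
      n (some s) * rk (A s.1) s.2 := by
    intro s
    rw [← mul_add]
    congr 1
    have h3 := ind_sum (A s.1) (RingEquiv.refl ℂ) s.2
    have e1 : ∀ χ : L →+* ℂ, act (RingEquiv.refl ℂ) χ = χ := fun χ => by ext; rfl
    rw [e1] at h3
    rw [← h3]
    rfl
  have h3 := (Finset.sum_congr rfl fun s _ => h2 s).symm.trans h1
  linarith

/-- The center: if a space `T` of vectors is spanned by the traces of the logarithmic derivatives, is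
defined over `ℚ`, then it contains the type. -/
theorem center (hros : ROS) (hL : IsAbelian L) (hW : Wuestholz P) (hA : ∀ i, P.IsAV (A i))
    (hgal : ∀ (τ : ℂ ≃+* ℂ) (D : Dv), ∃ E : Dv, E tau / tau = τ (D tau / tau) ∧
      ∀ s : Sl I L, (ld P A E s).trace = τ ((ld P A D (actS τ.symm s)).trace))
    (hlam : ∀ (lam : ℂ →ₗ[Kb] Kb) (D : Dv), ∃ E : Dv, E tau / tau = ((lam (D tau / tau) : Kb) : ℂ) ∧
      ∀ s : Sl I L, (ld P A E s).trace = ((lam (ld P A D s).trace : Kb) : ℂ)) :
    ∃ E : Dv, E tau / tau = 1 ∧ ∀ s : Sl I L, (ld P A E s).trace = rk (A s.1) s.2 := by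
  classical
  let T : Submodule ℂ (Option (Sl I L) → ℂ) :=
    { carrier := {t | ∃ D : Dv, t = trv (D tau / tau, ld P A D)}
      zero_mem' := ⟨0, by
        funext o
        cases o with
        | none => simp [trv]
        | some s =>
          have h0 : dM (0 : Dv) (P.per (A s.1) s.2) = 0 := by
            ext i j
            rfl
          change (0 : ℂ) = ((P.per (A s.1) s.2)⁻¹ * dM (0 : Dv) (P.per (A s.1) s.2)).trace
          rw [h0, Matrix.mul_zero, Matrix.trace_zero]⟩
      add_mem' := by
        rintro _ _ ⟨D, rfl⟩ ⟨E, rfl⟩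
        refine ⟨D + E, ?_⟩
        funext o
        cases o with
        | none =>
          change D tau / tau + E tau / tau = (D + E) tau / tau
          rw [Derivation.add_apply, add_div]
        | some s =>
          change (ld0 P (A s.1) D s.2).trace + (ld0 P (A s.1) E s.2).trace =
            (ld0 P (A s.1) (D + E) s.2).trace
          have h0 : dM (D + E) (P.per (A s.1) s.2) = dM D (P.per (A s.1) s.2) +
              dM E (P.per (A s.1) s.2) := by
            ext i j
            rfl
          rw [ld0, ld0, ld0, h0, Matrix.mul_add, Matrix.trace_add]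
      smul_mem' := by
        rintro a _ ⟨D, rfl⟩
        refine ⟨a • D, ?_⟩
        funext o
        cases o with
        | none =>
          change a * (D tau / tau) = (a • D) tau / tau
          rw [Derivation.smul_apply, smul_eq_mul, mul_div_assoc]
        | some s =>
          change a * (ld0 P (A s.1) D s.2).trace = (ld0 P (A s.1) (a • D) s.2).trace
          have h0 : dM (a • D) (P.per (A s.1) s.2) = a • dM D (P.per (A s.1) s.2) := by
            ext i j
            rfl
          rw [ld0, ld0, h0, Matrix.mul_smul, Matrix.trace_smul, smul_eq_mul] }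
  set tstar : Option (Sl I L) → ℂ := fun o => o.elim 1 fun s => (rk (A s.1) s.2 : ℂ) with htstar
  by_cases hT : tstar ∈ T
  · obtain ⟨E, hE⟩ := hT
    refine ⟨E, (congrFun hE none).symm, fun s => (congrFun hE (some s)).symm⟩
  · exfalso
    obtain ⟨f, hf0, hfT⟩ := Submodule.exists_le_ker_of_notMem hT
    -- the coefficients of `f`
    let a : Option (Sl I L) → ℂ := fun o => f (Pi.single o 1)
    have hfa : ∀ t : Option (Sl I L) → ℂ, f t = ∑ o, a o * t o := by
      intro t
      have h1 : t = ∑ o, t o • (Pi.single o (1 : ℂ) : Option (Sl I L) → ℂ) := by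
        funext o
        rw [Finset.sum_apply, Finset.sum_eq_single o]
        · simp
        · intro o' _ h
          simp [Pi.single_eq_of_ne (Ne.symm h)]
        · intro h
          exact absurd (Finset.mem_univ _) h
      conv_lhs => rw [h1]
      rw [map_sum]
      refine Finset.sum_congr rfl fun o _ => ?_
      rw [map_smul, smul_eq_mul, mul_comm]
    -- integrality of `tstar`
    obtain ⟨r, hr⟩ : ∃ r : Option (Sl I L) → ℤ, ∀ o, tstar o = r o :=
      ⟨fun o => o.elim 1 fun s => rk (A s.1) s.2, fun o => by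
        cases o with
        | none => simp [htstar]
        | some s => rfl⟩
    obtain ⟨lam, hlam0⟩ : ∃ lam : ℂ →ₗ[Kb] Kb, lam (f tstar) ≠ 0 := by
      by_contra hcon
      push Not at hcon
      exact hf0 (Pool.Agent.W519.Q.lam_sep hcon)
    let a' : Option (Sl I L) → Kb := fun o => lam (a o)
    have ha'star : ∑ o, a' o * (r o : Kb) ≠ 0 := by
      intro h0
      apply hlam0
      rw [hfa, map_sum, ← h0]
      refine Finset.sum_congr rfl fun o _ => ?_
      have h1 : a o * tstar o = (r o) • a o := by
        rw [hr, zsmul_eq_mul, mul_comm]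
      rw [h1, map_zsmul, zsmul_eq_mul, mul_comm]
    -- `a'` annihilates `T`
    have ha'T : ∀ D : Dv, ∑ o, (a' o : ℂ) * trv (D tau / tau, ld P A D) o = 0 := by
      intro D
      apply Pool.Agent.W519.Q.lam_sep
      intro mu
      obtain ⟨E, hE1, hE2⟩ := hlam mu D
      have h1 : f (trv (E tau / tau, ld P A E)) = 0 := hfT ⟨E, rfl⟩
      have h2 : ∀ o, trv (E tau / tau, ld P A E) o =
          ((mu (trv (D tau / tau, ld P A D) o) : Kb) : ℂ) := by
        intro o
        cases o with
        | none => exact hE1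
        | some s => exact hE2 s
      rw [hfa] at h1
      have h3 := congrArg lam h1
      rw [map_zero, map_sum] at h3
      rw [map_sum, ← h3]
      refine Finset.sum_congr rfl fun o _ => ?_
      rw [h2]
      have h4 : (a' o : ℂ) * trv (D tau / tau, ld P A D) o =
          a' o • trv (D tau / tau, ld P A D) o := rfl
      have h5 : a o * ((mu (trv (D tau / tau, ld P A D) o) : Kb) : ℂ) =
          mu (trv (D tau / tau, ld P A D) o) • a o := mul_comm _ _
      rw [h4, h5, map_smul, map_smul, smul_eq_mul, smul_eq_mul, mul_comm]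
    -- linearly independent coefficients
    obtain ⟨m, e, n, d, hd, he, hn⟩ := exists_indep a'
    have hros1 := hros m e he (fun k => mon P A (n k)) (fun k => mon_ne hA _) (by
      intro D0
      obtain ⟨D, hD⟩ := Pool.Agent.W537.TT.exists_derK (K := Kb) D0 (fun a => by
        exact Pool.Agent.W537.DB.der_alg D0 (alg_coe a))
      have h1 : ∀ k, D0 (mon P A (n k)) / mon P A (n k) =
          ∑ o, ((n k o : ℤ) : ℂ) * trv (D tau / tau, ld P A D) o := by
        intro k
        rw [← hD]
        exact lg_mon hA (n k) D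
      simp only [h1, Finset.mul_sum]
      rw [Finset.sum_comm]
      have h2 : ∀ o, ∑ k, (e k : ℂ) * (((n k o : ℤ) : ℂ) * trv (D tau / tau, ld P A D) o) =
          (d : ℂ) * ((a' o : ℂ) * trv (D tau / tau, ld P A D) o) := by
        intro o
        have h3 := congrArg (fun x : Kb => (x : ℂ)) (hn o)
        push_cast at h3
        rw [← mul_assoc, h3, Finset.sum_mul]
        refine Finset.sum_congr rfl fun k _ => ?_
        ring
      rw [Finset.sum_congr rfl fun o _ => h2 o, ← Finset.mul_sum, ha'T, mul_zero])
    have hrel : ∀ k, ∑ o, (n k o : ℤ) * r o = 0 := by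
      intro k
      have h1 : ∀ D : Dv, ∑ o, ((n k o : ℤ) : ℂ) * trv (D tau / tau, ld P A D) o = 0 := by
        intro D
        rw [← lg_mon hA (n k) D, lg, dv_alg D (hros1 k), zero_div]
      have h2 := rel_types hL hW hA (n k) (fun τ D => by
        obtain ⟨E, hE1, hE2⟩ := hgal τ.symm D
        have h3 := h1 E
        rw [Fintype.sum_option] at h3
        change ((n k none : ℤ) : ℂ) * (E tau / tau) +
          ∑ s : Sl I L, ((n k (some s) : ℤ) : ℂ) * (ld P A E s).trace = 0 at h3
        rw [hE1] at h3
        simp only [hE2] at h3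
        have h4 := congrArg τ h3
        rw [map_add, map_mul, map_zero, map_intCast, RingEquiv.apply_symm_apply, map_sum] at h4
        rw [← h4]
        congr 1
        refine Finset.sum_congr rfl fun s _ => ?_
        rw [map_mul, map_intCast, RingEquiv.apply_symm_apply]
        rfl)
      rw [Fintype.sum_option]
      have hr0 : r none = 1 := by
        have := hr none
        simp only [htstar, Option.elim] at this
        exact_mod_cast this.symm
      have hrs : ∀ s, r (some s) = rk (A s.1) s.2 := by
        intro s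
        have := hr (some s)
        simp only [htstar, Option.elim] at this
        exact_mod_cast this.symm
      rw [hr0, mul_one]
      simp only [hrs]
      exact h2
    apply ha'star
    have h1 : (d : Kb) * ∑ o, a' o * (r o : Kb) = 0 := by
      rw [Finset.mul_sum]
      have h2 : ∀ o, (d : Kb) * (a' o * (r o : Kb)) = ∑ k, e k * (((n k o : ℤ) : Kb) * (r o : Kb)) := by
        intro o
        rw [← mul_assoc, hn, Finset.sum_mul]
        refine Finset.sum_congr rfl fun k _ => ?_
        ring
      rw [Finset.sum_congr rfl fun o _ => h2 o, Finset.sum_comm]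
      refine Finset.sum_eq_zero fun k _ => ?_
      rw [← Finset.mul_sum]
      have h3 := congrArg (fun x : ℤ => (x : Kb)) (hrel k)
      push_cast at h3
      rw [h3, mul_zero]
    have hd' : (d : Kb) ≠ 0 := by exact_mod_cast hd
    exact (mul_eq_zero.1 h1).resolve_left hd'

end

end Pool.Agent.W519.E
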