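import Mathlib
import Pool.Agent.W519.Q.Defs

/-!
# Periods of abelian varieties with multiplication by a CM field whose homology has rank two over
# the field: the Mumford-Tate group, the transcendence degree of the field of the periods, and the
# torsor
-/

set_option autoImplicit false

namespace Pool.Agent.W519.E

open NumberField Matrix Pool.Agent.W519.Q

noncomputable section

/-- the field of algebraic numbers -/
abbrev Kb : IntermediateField ℚ ℂ := algebraicClosure ℚ ℂ

/-- Families of matrices of size two indexed by `S`, together with a number. The set `S` is the set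
of the pairs `(i, φ)` of an index `i` of an abelian variety `A i` with multiplication by `L` and a
complex embedding `φ` of `L`: the homology `H_1(X, ℂ)` of the product `X` of the `A i` is the direct
sum over `S` of spaces `ℂ ^ 2`, and the number is an endomorphism of `ℚ(1) ⊗ ℂ = ℂ`. -/
abbrev V (S : Type) : Type := ℂ × (S → Matrix (Fin 2) (Fin 2) ℂ)

variable {S : Type}

/-- all components are invertible -/
def Inv (x : V S) : Prop := x.1 ≠ 0 ∧ ∀ s, (x.2 s).det ≠ 0

/-- the coordinates -/
def crd (x : V S) : Option (S × Fin 2 × Fin 2) → ℂ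
  | none => x.1
  | some q => x.2 q.1 q.2.1 q.2.2

/-- the Zariski closure over the field of algebraic numbers of the point `c` -/
def clo (c : V S) : Set (V S) :=
  {x | ∀ p : MvPolynomial (Option (S × Fin 2 × Fin 2)) Kb,
    MvPolynomial.aeval (crd c) p = 0 → MvPolynomial.aeval (crd x) p = 0}

/-- the space of the logarithmic derivatives `c⁻¹ D(c)`, for all derivations `D` of the field of
complex numbers -/
def logSpace (c : V S) : Submodule ℂ (V S) where
  carrier := {x | ∃ D : Derivation ℤ ℂ ℂ, x.1 = c.1⁻¹ * D c.1 ∧ ∀ s, x.2 s = (c.2 s)⁻¹ * (c.2 s).map D}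
  zero_mem' := ⟨0, by simp, fun s => by
    have h1 : (c.2 s).map (0 : Derivation ℤ ℂ ℂ) = 0 := by
      ext i j
      rfl
    rw [h1, Matrix.mul_zero]
    rfl⟩
  add_mem' := by
    rintro x y ⟨D, hD1, hD2⟩ ⟨E, hE1, hE2⟩
    refine ⟨D + E, ?_, fun s => ?_⟩
    · rw [Prod.fst_add, hD1, hE1, ← mul_add]
      rfl
    · rw [Prod.snd_add, Pi.add_apply, hD2, hE2, ← Matrix.mul_add]
      congr 1
  smul_mem' := by
    rintro a x ⟨D, hD1, hD2⟩
    refine ⟨a • D, ?_, fun s => ?_⟩
    · rw [Prod.smul_fst, hD1, smul_eq_mul, mul_left_comm]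
      rfl
    · rw [Prod.smul_snd, Pi.smul_apply, hD2, ← Matrix.mul_smul]
      congr 1

/-- the semilinear action of the automorphisms of `ℂ`, given an action `g` on the index set -/
def tw (g : (ℂ ≃+* ℂ) →* Equiv.Perm S) (σ : ℂ ≃+* ℂ) (x : V S) : V S :=
  (σ x.1, fun s => (x.2 ((g σ).symm s)).map σ)

/-- The closure of the point `c` over the field of algebraic numbers is a torsor under a group which
is defined over `ℚ`: if `x`, `y`, `z` are invertible elements of the closure and `σ` is an
automorphism of `ℂ`, then `x σ(y⁻¹ z)` is in the closure. -/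
def IsTorsor (g : (ℂ ≃+* ℂ) →* Equiv.Perm S) (c : V S) : Prop :=
  ∀ (σ : ℂ ≃+* ℂ) (x y z : V S), Inv x → Inv y → Inv z → x ∈ clo c → y ∈ clo c → z ∈ clo c →
    x * tw g σ (y⁻¹ * z) ∈ clo c

/-- the subspace is defined over `ℚ`: it is stable under the semilinear action of the automorphisms
of `ℂ` -/
def IsRational (g : (ℂ ≃+* ℂ) →* Equiv.Perm S) (W : Submodule ℂ (V S)) : Prop :=
  ∀ (σ : ℂ ≃+* ℂ), ∀ x ∈ W, tw g σ x ∈ W

end

end Pool.Agent.W519.E
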