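import Pool.Agent.W519.E.Per

/-!
# Common eigenvectors
-/

set_option autoImplicit false
set_option linter.unusedSectionVars false

namespace Pool.Agent.W519.E

open NumberField Pool.Agent.H204R3.CM Pool.Agent.W547.KB Pool.Agent.W537.PC Matrix
open Pool.Agent.W519.Q hiding Kb sL mem_sL NoEig subdirect PeriodSystem Semisimple SemisimpleAt
  HomHodge IC inter_ic pm ld pm_mul_ld ld_inj ld_pol ld_sq EV COM ev_of EndHodge no_split noEig

noncomputable section

variable {L : Type} [Field L] [NumberField L] [IsCMField L]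
variable {I : Type} [Fintype I]
variable [IsGalois ℚ L]
variable {A : I → HS L} {Sp : I → Matrix (Fin 2) (Fin 2) L} {b : LSys A Sp}

/-- the vector `v` is an eigenvector of the elements of the Lie algebra at the slot `s` -/
structure EV (b : LSys A Sp) (s : Sl I L) (v : Fin 2 → ℂ) : Prop where
  alg : AlgV v
  ne : v ≠ 0
  ev : ∀ (Y : Sl I L → M2 ℂ) (y : ℂ), MM b Y y → ∃ μ : ℂ, Y s *ᵥ v = μ • v

/-- the matrix `N` commutes with the elements of the Lie algebra at the slot `s` -/
def COM (b : LSys A Sp) (s : Sl I L) (N : M2 ℂ) : Prop :=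
  ∀ (Y : Sl I L → M2 ℂ) (y : ℂ), MM b Y y → Y s * N = N * Y s

/-- eigenvectors for the elements with algebraic entries are eigenvectors for all elements -/
lemma ev_of {s : Sl I L} {v : Fin 2 → Kb} (hv : v ≠ 0)
    (hev : ∀ (Y : Sl I L → M2 Kb) (y : Kb), MM b (up ℂ Y) y → ∃ μ : Kb, Y s *ᵥ v = μ • v) :
    EV b s (fun i => ((v i : Kb) : ℂ)) := by
  have hv' : (fun i => ((v i : Kb) : ℂ)) ≠ 0 := by
    intro h
    apply hv
    funext i
    have h1 : ((v i : Kb) : ℂ) = 0 := congrFun h i
    rw [Pi.zero_apply]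
    exact_mod_cast h1
  refine ⟨fun i => alg_coe _, hv', fun X0 y hX => exists_mu hv' ?_⟩
  set X := X0 s with hXdef
  set V : Fin 2 → ℂ := fun i => ((v i : Kb) : ℂ) with hV
  apply lam_sep
  intro lam
  obtain ⟨μ, hμ⟩ := hev _ _ (hX.lam lam)
  have e0 := congrFun hμ 0
  have e1 := congrFun hμ 1
  simp only [Matrix.mulVec, dotProduct, Fin.sum_univ_two, lamM, Matrix.map_apply, Pi.smul_apply,
    smul_eq_mul] at e0 e1
  have e2 : ∀ q, lam ((X *ᵥ V) q * V 1) = (lam (X q 0) * v 0 + lam (X q 1) * v 1) * v 1 := by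
    intro q
    have : (X *ᵥ V) q * V 1 = (v 0 * v 1) • X q 0 + (v 1 * v 1) • X q 1 := by
      simp only [Matrix.mulVec, dotProduct, Fin.sum_univ_two, hV, Algebra.smul_def]
      push_cast
      change _ = ((v 0 : ℂ) * v 1) * X q 0 + ((v 1 : ℂ) * v 1) * X q 1
      ring
    rw [this, map_add, map_smul, map_smul, smul_eq_mul, smul_eq_mul]
    ring
  have e3 : ∀ q, lam ((X *ᵥ V) q * V 0) = (lam (X q 0) * v 0 + lam (X q 1) * v 1) * v 0 := by
    intro q
    have : (X *ᵥ V) q * V 0 = (v 0 * v 0) • X q 0 + (v 1 * v 0) • X q 1 := by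
      simp only [Matrix.mulVec, dotProduct, Fin.sum_univ_two, hV, Algebra.smul_def]
      push_cast
      change _ = ((v 0 : ℂ) * v 0) * X q 0 + ((v 1 : ℂ) * v 0) * X q 1
      ring
    rw [this, map_add, map_smul, map_smul, smul_eq_mul, smul_eq_mul]
    ring
  rw [map_sub, e2, e3, e0, e1]
  ring

lemma EV.gal {s : Sl I L} {v : Fin 2 → ℂ} (h : EV b s v) (τ : ℂ ≃+* ℂ) :
    EV b (actS τ s) (fun i => τ (v i)) := by
  refine ⟨fun i => (h.alg i).algHom ((τ : ℂ →+* ℂ).toRatAlgHom), fun h0 => h.ne ?_,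
    fun Y y hY => ?_⟩
  · funext i
    have := congrFun h0 i
    exact (map_eq_zero τ).1 this
  · obtain ⟨μ, hμ⟩ := h.ev _ _ (hY.gal τ.symm)
    refine ⟨τ μ, ?_⟩
    funext i
    have h1 := congrArg τ (congrFun hμ i)
    simp only [galM, Matrix.mulVec, dotProduct, Fin.sum_univ_two, Matrix.map_apply, Pi.smul_apply,
      smul_eq_mul, map_add, map_mul, RingEquiv.apply_symm_apply, RingEquiv.symm_symm] at h1 ⊢
    exact h1

lemma COM.gal {s : Sl I L} {N : M2 ℂ} (h : COM b s N) (τ : ℂ ≃+* ℂ) :
    COM b (actS τ s) (N.map τ) := by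
  intro Y y hY
  have h1 := h _ _ (hY.gal τ.symm)
  have h3 := congrArg (fun M => M.map τ) h1
  have e1 : ∀ M N : M2 ℂ, (M * N).map τ = M.map τ * N.map τ := fun M N => Matrix.map_mul
  simp only [e1] at h3
  have e2 : (galM τ.symm Y s).map τ = Y (actS τ s) := by
    ext i j
    simp [galM]
  rwa [e2] at h3

lemma EV.of_smul {s : Sl I L} {v v' : Fin 2 → ℂ} {a : ℂ} (h : EV b s v) (ha : a ≠ 0)
    (haa : IsAlgebraic ℚ a) (hv : ∀ i, v i = a * v' i) : EV b s v' := by
  have hv' : v' = a⁻¹ • v := by
    funext i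
    rw [Pi.smul_apply, hv, smul_eq_mul, inv_mul_cancel_left₀ ha]
  refine ⟨fun i => ?_, fun h0 => h.ne ?_, fun Y y hY => ?_⟩
  · rw [hv']
    exact haa.inv.mul (h.alg i)
  · funext i
    rw [hv, h0]
    simp
  · obtain ⟨μ, hμ⟩ := h.ev Y y hY
    refine ⟨μ, ?_⟩
    rw [hv', Matrix.mulVec_smul, hμ, smul_comm]

variable {P : PerSys L}

/-- the period matrix maps a common eigenvector to a multiple of an algebraic vector -/
theorem EV.per (hA : ∀ i, P.IsAV (A i)) (hld : ∀ D : Dv, MM b (ld P A D) (D tau / tau))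
    {s : Sl I L} {v : Fin 2 → ℂ} (h : EV b s v) :
    ∃ (c : ℂ) (u : Fin 2 → ℂ), c ≠ 0 ∧ AlgV u ∧ P.per (A s.1) s.2 *ᵥ v = c • u := by
  set p : Fin 2 → ℂ := P.per (A s.1) s.2 *ᵥ v with hp
  have hdet : (P.per (A s.1) s.2).det ≠ 0 := P.det_ne _ (hA s.1) s.2
  have hp0 : p ≠ 0 := by
    intro h0
    exact hdet (Matrix.exists_mulVec_eq_zero_iff.1 ⟨_, h.ne, h0⟩)
  obtain ⟨c, u, hc, hu, hpu⟩ := prop_alg p hp0 (fun D => by
    obtain ⟨μ, hμ⟩ := h.ev _ _ (hld D)
    change ld0 P (A s.1) D s.2 *ᵥ v = μ • v at hμ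
    refine ⟨μ, fun i => ?_⟩
    have h2 : (fun i => D (p i)) = (dM D (P.per (A s.1) s.2)) *ᵥ v := by
      funext i
      simp only [hp, Matrix.mulVec, dotProduct, Fin.sum_univ_two, map_add, dv_mul, dM,
        Matrix.map_apply, dv_alg D (h.alg _), mul_zero, zero_add]
    have h3 := congrFun h2 i
    rw [← per_mul_ld0 (hA s.1), ← Matrix.mulVec_mulVec, hμ, Matrix.mulVec_smul] at h3
    exact h3)
  exact ⟨c, u, hc, hu, hpu⟩

/-- matrices commuting with the Lie algebra respect the de Rham structures -/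
theorem COM.per (hA : ∀ i, P.IsAV (A i)) (hld : ∀ D : Dv, MM b (ld P A D) (D tau / tau))
    {s : Sl I L} {N : M2 ℂ} (hN : AlgM N) (h : COM b s N) :
    ∃ M, AlgM M ∧ P.per (A s.1) s.2 * N = M * P.per (A s.1) s.2 := by
  refine ⟨_, per_of_ld (hA s.1) (hA s.1) hN (χ := s.2) (ψ := s.2) (fun D => h _ _ (hld D)), ?_⟩
  rw [Matrix.mul_assoc, Matrix.nonsing_inv_mul _ (per_unit (hA s.1) s.2), Matrix.mul_one]

/-- the degree two statement, for endomorphisms -/
def EndHodge (P : PerSys L) : Prop :=
  ∀ A : HS L, P.IsAV A → A.IsSimple → ∀ T : Matrix (Fin 2) (Fin 2) L,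
    (∀ χ : L →+* ℂ, ∃ M, AlgM M ∧ P.per A χ * T.map χ = M * P.per A χ) → IsHom A A T

/-- no complement of a line -/
theorem no_split (hE : EndHodge P) {B : HS L} (hB : P.IsAV B) (hs : B.IsSimple)
    {x x' : Fin 2 → L} (hli : LinearIndependent L ![x, x'])
    (h : ∀ χ : L →+* ℂ, ∃ (c : ℂ) (u : Fin 2 → ℂ), AlgV u ∧ (P.per B χ *ᵥ fun a => χ (x a)) = c • u)
    (h' : ∀ χ : L →+* ℂ, ∃ (c : ℂ) (u : Fin 2 → ℂ), AlgV u ∧
      (P.per B χ *ᵥ fun a => χ (x' a)) = c • u) : False := by
  let V : Matrix (Fin 2) (Fin 2) L := Matrix.of fun i j => if j = 0 then x i else x' i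
  let E : Matrix (Fin 2) (Fin 2) L := !![1, 0; 0, 0]
  have hVdet : V.det ≠ 0 := by
    intro h2
    obtain ⟨y, hy, hVy⟩ := Matrix.exists_mulVec_eq_zero_iff.2 h2
    have h4 := LinearIndependent.pair_iff.1 hli (y 0) (y 1) (by
      funext i
      have := congrFun hVy i
      simp only [V, Matrix.mulVec, dotProduct, Fin.sum_univ_two, Matrix.of_apply,
        Pi.zero_apply] at this
      simp only [Pi.add_apply, Pi.smul_apply, smul_eq_mul, Pi.zero_apply]
      simp at this
      linear_combination this)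
    apply hy
    funext i
    fin_cases i
    · exact h4.1
    · exact h4.2
  have hVu : IsUnit V.det := isUnit_iff_ne_zero.2 hVdet
  have hT : IsHom B B (V * E * V⁻¹) := by
    refine hE B hB hs _ fun χ => ?_
    obtain ⟨c, u, hu, hc⟩ := h χ
    obtain ⟨c', u', hu', hc'⟩ := h' χ
    let U : M2 ℂ := Matrix.of fun i j => if j = 0 then u i else u' i
    let C : M2 ℂ := Matrix.diagonal ![c, c']
    have hU : AlgM U := by
      intro i j
      fin_cases j
      · exact hu i
      · exact hu' i
    have hPV : P.per B χ * V.map χ = U * C := by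
      ext i j
      fin_cases j
      · have h2 := congrFun hc i
        simp only [Matrix.mulVec, dotProduct, Fin.sum_univ_two, Pi.smul_apply, smul_eq_mul] at h2
        simp only [V, U, C, Matrix.mul_apply, Fin.sum_univ_two, Matrix.map_apply, Matrix.of_apply,
          Matrix.diagonal, if_true, Fin.zero_eta]
        simp
        exact h2.trans (mul_comm _ _)
      · have h2 := congrFun hc' i
        simp only [Matrix.mulVec, dotProduct, Fin.sum_univ_two, Pi.smul_apply, smul_eq_mul] at h2
        simp only [V, U, C, Matrix.mul_apply, Fin.sum_univ_two, Matrix.map_apply, Matrix.of_apply,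
          Matrix.diagonal, Fin.mk_one]
        simp
        exact h2.trans (mul_comm _ _)
    have hVχ : (V.map χ).det ≠ 0 := by
      have : (V.map χ).det = χ V.det := by
        rw [Matrix.det_fin_two, Matrix.det_fin_two]
        simp
      rw [this]
      exact (map_ne_zero χ).2 hVdet
    have hVχu : IsUnit (V.map χ).det := isUnit_iff_ne_zero.2 hVχ
    have hUdet : U.det ≠ 0 := by
      intro h2
      have h3 := congrArg Matrix.det hPV
      rw [Matrix.det_mul, Matrix.det_mul, h2, zero_mul] at h3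
      exact mul_ne_zero (P.det_ne B hB χ) hVχ h3
    have hUu : IsUnit U.det := isUnit_iff_ne_zero.2 hUdet
    have hEC : E.map χ * C = C * E.map χ := by
      ext i j
      fin_cases i <;> fin_cases j <;> simp [E, C, Matrix.mul_apply, Fin.sum_univ_two]
    have hEalg : AlgM (E.map χ) := fun i j => emb_alg χ _
    have hVinv : V⁻¹.map χ = (V.map χ)⁻¹ := by
      have h5 : V⁻¹.map χ * V.map χ = 1 := by
        rw [← Matrix.map_mul, Matrix.nonsing_inv_mul _ hVu]
        ext i j
        fin_cases i <;> fin_cases j <;> simp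
      exact (Matrix.inv_eq_left_inv h5).symm
    refine ⟨U * E.map χ * U⁻¹, ?_, ?_⟩
    · have hUinv : AlgM U⁻¹ := by
        rw [Matrix.inv_def, Ring.inverse_eq_inv', Matrix.adjugate_fin_two]
        intro i j
        refine IsAlgebraic.mul ?_ ?_
        · rw [Matrix.det_fin_two]
          exact (((hU 0 0).mul (hU 1 1)).sub ((hU 0 1).mul (hU 1 0))).inv
        · fin_cases i <;> fin_cases j
          · exact hU 1 1
          · exact (hU 0 1).neg
          · exact (hU 1 0).neg
          · exact hU 0 0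
      have mul : ∀ {M N : M2 ℂ}, AlgM M → AlgM N → AlgM (M * N) := by
        intro M N hM hN i j
        rw [Matrix.mul_apply, Fin.sum_univ_two]
        exact ((hM i 0).mul (hN 0 j)).add ((hM i 1).mul (hN 1 j))
      exact mul (mul hU hEalg) hUinv
    · have a1 : P.per B χ = U * C * (V.map χ)⁻¹ := by
        rw [← hPV, Matrix.mul_assoc, Matrix.mul_nonsing_inv _ hVχu, Matrix.mul_one]
      rw [Matrix.map_mul, Matrix.map_mul, hVinv]
      calc P.per B χ * (V.map χ * E.map χ * (V.map χ)⁻¹) =
            (P.per B χ * V.map χ) * E.map χ * (V.map χ)⁻¹ := by simp only [Matrix.mul_assoc]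
        _ = U * (C * E.map χ) * (V.map χ)⁻¹ := by rw [hPV]; simp only [Matrix.mul_assoc]
        _ = U * E.map χ * (1 * C) * (V.map χ)⁻¹ := by
            rw [← hEC, Matrix.one_mul]; simp only [Matrix.mul_assoc]
        _ = U * E.map χ * U⁻¹ * (U * C * (V.map χ)⁻¹) := by
            rw [← Matrix.nonsing_inv_mul U hUu]; simp only [Matrix.mul_assoc]
        _ = _ := by rw [← a1]
  obtain ⟨r, hr⟩ := hs _ hT
  have h4 := congrArg (fun X => V⁻¹ * (X * V)) hr
  simp only [Matrix.mul_assoc, Matrix.nonsing_inv_mul _ hVu, Matrix.mul_one] at h4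
  rw [← Matrix.mul_assoc, Matrix.nonsing_inv_mul _ hVu, Matrix.one_mul] at h4
  have h5 : Matrix.scalar (Fin 2) r * V = V * Matrix.scalar (Fin 2) r := by
    ext i j
    simp [mul_comm]
  rw [h5, ← Matrix.mul_assoc, Matrix.nonsing_inv_mul _ hVu, Matrix.one_mul] at h4
  have a := congrFun (congrFun h4 0) 0
  have a' := congrFun (congrFun h4 1) 1
  simp [E] at a a'
  rw [← a] at a'
  exact one_ne_zero a'.symm

/-- simple abelian varieties have no common eigenvector -/
theorem noEig (hE : EndHodge P) (hss : Wuestholz P)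
    (hA : ∀ i, P.IsAV (A i)) (hld : ∀ D : Dv, MM b (ld P A D) (D tau / tau)) (s : Sl I L) (hs : (A s.1).IsSimple) : NoEig b s := by
  rintro ⟨v0, hv0, hev0⟩
  obtain ⟨i, φ⟩ := s
  have hv := ev_of hv0 hev0
  set v : Fin 2 → ℂ := fun i => ((v0 i : Kb) : ℂ)
  have hs' : (A i).IsSimple := hs
  have stab : ∀ τ : ℂ ≃+* ℂ, act τ φ = φ → actS τ (i, φ) = (i, φ) := by
    intro τ hτ
    rw [actS, hτ]
  have noCom : ∀ T : Matrix (Fin 2) (Fin 2) L, COM b (i, φ) (T.map φ) →
      ∃ r : L, T = Matrix.scalar (Fin 2) r := by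
    intro T hT
    refine hs' T (hE _ (hA i) hs' T fun χ => ?_)
    obtain ⟨τ, rfl⟩ := exists_act φ χ
    exact COM.per hA hld (show AlgM ((T.map φ).map τ) from fun p q => emb_alg (act τ φ) (T p q))
      (hT.gal τ)
  by_cases h2 : ∃ v', EV b (i, φ) v' ∧ v 0 * v' 1 - v 1 * v' 0 ≠ 0
  · -- two common eigenvectors
    obtain ⟨v', hv', hd⟩ := h2
    let V : M2 ℂ := Matrix.of fun i j => if j = 0 then v i else v' i
    have hVd : V.det ≠ 0 := by
      rw [Matrix.det_fin_two]
      simp only [V, Matrix.of_apply]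
      simp
      intro h0
      apply hd
      linear_combination h0
    have hVu : IsUnit V.det := isUnit_iff_ne_zero.2 hVd
    have hVa : AlgM V := by
      intro p q
      fin_cases q
      · exact hv.alg p
      · exact hv'.alg p
    set Q : M2 ℂ := V * hh ℂ * V⁻¹ with hQ
    have hVinv : AlgM V⁻¹ := by
      rw [Matrix.inv_def, Ring.inverse_eq_inv', Matrix.adjugate_fin_two]
      intro p q
      refine IsAlgebraic.mul ?_ ?_
      · rw [Matrix.det_fin_two]
        exact (((hVa 0 0).mul (hVa 1 1)).sub ((hVa 0 1).mul (hVa 1 0))).inv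
      · fin_cases p <;> fin_cases q
        · exact hVa 1 1
        · exact (hVa 0 1).neg
        · exact (hVa 1 0).neg
        · exact hVa 0 0
    have mul : ∀ {M N : M2 ℂ}, AlgM M → AlgM N → AlgM (M * N) := by
      intro M N hM hN i j
      rw [Matrix.mul_apply, Fin.sum_univ_two]
      exact ((hM i 0).mul (hN 0 j)).add ((hM i 1).mul (hN 1 j))
    have hhalg : AlgM (hh ℂ) := by
      intro p q
      fin_cases p <;> fin_cases q
      · exact isAlgebraic_one
      · exact isAlgebraic_zero
      · exact isAlgebraic_zero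
      · exact isAlgebraic_one.neg
    have hQa : AlgM Q := mul (mul hVa hhalg) hVinv
    have hQtr : Q.trace = 0 := by
      rw [hQ, Matrix.trace_mul_comm, ← Matrix.mul_assoc, Matrix.nonsing_inv_mul _ hVu,
        Matrix.one_mul, tr_hh]
    have hQ0 : Q ≠ 0 := by
      intro h0
      have h3 : V⁻¹ * Q * V = hh ℂ := by
        rw [hQ, Matrix.mul_assoc, Matrix.mul_assoc, Matrix.nonsing_inv_mul _ hVu, Matrix.mul_one,
          ← Matrix.mul_assoc, Matrix.nonsing_inv_mul _ hVu, Matrix.one_mul]
      rw [h0, Matrix.mul_zero, Matrix.zero_mul] at h3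
      have := congrFun (congrFun h3 0) 0
      simp [hh] at this
    -- the elements are diagonal
    have hdiag : ∀ (Y : Sl I L → M2 ℂ) (y : ℂ), MM b Y y → ∃ r : ℂ,
        tl (Y (i, φ)) = r • Q := by
      intro Y y hY
      obtain ⟨μ, hμ⟩ := hv.ev Y y hY
      obtain ⟨μ', hμ'⟩ := hv'.ev Y y hY
      refine ⟨(μ - μ') / 2, ?_⟩
      set X := Y (i, φ)
      have h3 : X * V = V * Matrix.diagonal ![μ, μ'] := by
        ext p q
        fin_cases q
        · have := congrFun hμ p
          simp only [Matrix.mulVec, dotProduct, Fin.sum_univ_two, Pi.smul_apply,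
            smul_eq_mul] at this
          simp [V, Matrix.mul_apply, Fin.sum_univ_two, Matrix.diagonal]
          rw [this, mul_comm]
        · have := congrFun hμ' p
          simp only [Matrix.mulVec, dotProduct, Fin.sum_univ_two, Pi.smul_apply,
            smul_eq_mul] at this
          simp [V, Matrix.mul_apply, Fin.sum_univ_two, Matrix.diagonal]
          rw [this, mul_comm]
      have h4 : X = V * Matrix.diagonal ![μ, μ'] * V⁻¹ := by
        rw [← h3, Matrix.mul_assoc, Matrix.mul_nonsing_inv _ hVu, Matrix.mul_one]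
      have h5 : X.trace = μ + μ' := by
        rw [h4, Matrix.trace_mul_comm, ← Matrix.mul_assoc, Matrix.nonsing_inv_mul _ hVu,
          Matrix.one_mul, Matrix.trace_fin_two]
        simp [Matrix.diagonal]
      have h6 : Matrix.diagonal ![μ, μ'] = ((μ - μ') / 2) • hh ℂ + ((μ + μ') / 2) • (1 : M2 ℂ) := by
        ext p q
        fin_cases p <;> fin_cases q <;> simp [hh] <;> ring
      rw [tl, h5, h4, h6, Matrix.mul_add, Matrix.add_mul, Matrix.mul_smul, Matrix.mul_smul,
        Matrix.mul_one, Matrix.smul_mul, Matrix.smul_mul, Matrix.mul_nonsing_inv _ hVu]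
      abel
    have hcomQ : COM b (i, φ) Q := by
      intro Y y hY
      obtain ⟨r, hr⟩ := hdiag Y y hY
      rw [tl_add_smul (Y (i, φ)), hr]
      simp only [Matrix.add_mul, Matrix.mul_add, Matrix.smul_mul, Matrix.mul_smul, Matrix.one_mul,
        Matrix.mul_one]
    by_cases h3 : ∃ (Y : Sl I L → M2 ℂ) (y : ℂ), MM b Y y ∧ tl (Y (i, φ)) ≠ 0
    · obtain ⟨Y0, y0, hY0, hne⟩ := h3
      obtain ⟨r, hr⟩ := hdiag Y0 y0 hY0
      have hr0 : r ≠ 0 := by
        intro h0
        rw [h0, zero_smul] at hr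
        exact hne hr
      obtain ⟨a, x, ha, haa, hx⟩ := descent φ (fun p : Fin 2 × Fin 2 => Q p.1 p.2)
        (fun p => hQa _ _) (by
          intro h0
          apply hQ0
          ext p q
          exact congrFun h0 (p, q)) (by
          intro τ hτ
          obtain ⟨r', hr'⟩ := hdiag _ _ (hY0.gal τ)
          refine ⟨r' * (τ r)⁻¹, fun p => ?_⟩
          have h4 : tl (galM τ Y0 (i, φ)) = (tl (Y0 (i, φ))).map τ := by
            have hsym : actS τ.symm (i, φ) = (i, φ) := by
              have : act τ.symm φ = φ := by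
                conv_lhs => rw [← hτ]
                exact act_symm_act τ φ
              rw [actS, this]
            have h5 : galM τ Y0 (i, φ) = (Y0 (i, φ)).map τ := by
              rw [galM, hsym]
            rw [h5]
            ext p q
            simp only [tl, Matrix.sub_apply, Matrix.smul_apply, Matrix.map_apply,
              Matrix.trace_fin_two, smul_eq_mul, map_sub, map_mul, map_div₀, map_add]
            congr 2
            · rw [show (2 : ℂ) = ((2 : ℕ) : ℂ) by norm_num, map_natCast]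
            · fin_cases p <;> fin_cases q <;> simp
          rw [h4, hr] at hr'
          have h5 := congrFun (congrFun hr' p.1) p.2
          simp only [Matrix.map_apply, Matrix.smul_apply, smul_eq_mul, map_mul] at h5
          have h6 : τ r ≠ 0 := (map_ne_zero τ).2 hr0
          field_simp
          linear_combination h5)
      obtain ⟨t, ht⟩ := noCom (Matrix.of fun p q => x (p, q)) (by
        intro Y y hY
        have h4 := hcomQ Y y hY
        have h5 : Q = a • (Matrix.of fun p q => x (p, q)).map φ := by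
          ext p q
          exact hx (p, q)
        rw [h5, Matrix.mul_smul, Matrix.smul_mul] at h4
        exact smul_right_injective _ ha h4)
      have h5 : Q = (a * φ t) • (1 : M2 ℂ) := by
        ext p q
        have h6 := hx (p, q)
        have h7 := congrFun (congrFun ht p) q
        simp only [Matrix.of_apply] at h7
        simp only at h6
        rw [h6, h7]
        fin_cases p <;> fin_cases q <;> simp
      rw [h5, Matrix.trace_smul, Matrix.trace_one] at hQtr
      simp only [smul_eq_mul] at hQtr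
      rcases mul_eq_zero.1 hQtr with h8 | h8
      · rw [h8, zero_smul] at h5
        exact hQ0 h5
      · simp at h8
    · push Not at h3
      obtain ⟨t, ht⟩ := noCom (ee L) (by
        intro Y y hY
        rw [tl_add_smul (Y (i, φ)), h3 Y y hY, zero_add, Matrix.smul_mul, Matrix.mul_smul,
          Matrix.one_mul, Matrix.mul_one])
      have := congrFun (congrFun ht 0) 1
      simp [ee] at this
  · push Not at h2
    obtain ⟨a, x, ha, haa, hx⟩ := descent φ v hv.alg hv.ne (by
      intro τ hτ
      have h3 := hv.gal τ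
      rw [stab τ hτ] at h3
      exact prop_of_det hv.ne (h2 _ h3))
    have hEVx : EV b (i, φ) (fun k => φ (x k)) := hv.of_smul ha haa hx
    have hx0 : x ≠ 0 := by
      intro h0
      apply hEVx.ne
      funext k
      rw [h0]
      simp
    have hall : ∀ χ : L →+* ℂ, ∃ (c : ℂ) (u : Fin 2 → ℂ), AlgV u ∧
        (P.per (A i) χ *ᵥ fun a => χ (x a)) = c • u := by
      intro χ
      obtain ⟨τ, rfl⟩ := exists_act φ χ
      obtain ⟨c, u, _, hu, hcu⟩ := (hEVx.gal τ).per hA hld
      exact ⟨c, u, hu, hcu⟩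
    obtain ⟨x', hli, hx'⟩ := hss.sub _ (hA i) x hx0 hall
    exact no_split hE (hA i) hs' hli hall hx'

end

end Pool.Agent.W519.E
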