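import Pool.Agent.W519.E.Cen
import Pool.Agent.W481.RK.TORA
import Pool.Agent.W654.RK.TORB
import Pool.Agent.W131.RK.CLO
import Pool.Agent.W108.RK.ROS

/-!
# The main theorem
-/

set_option autoImplicit false
set_option linter.unusedSectionVars false
set_option linter.unusedVariables false

namespace Pool.Agent.W519.E

open NumberField Pool.Agent.H204R3.CM Pool.Agent.W547.KB Pool.Agent.W537.PC Matrix
open Pool.Agent.W519.Q hiding Kb sL mem_sL NoEig subdirect PeriodSystem Semisimple SemisimpleAt
  HomHodge IC inter_ic pm ld pm_mul_ld ld_inj ld_pol ld_sq EV COM ev_of EndHodge no_split noEig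
  comm_all cl_det cl_twist main_act main_field' DetL detL

noncomputable section

variable {L : Type} [Field L] [NumberField L] [IsCMField L] [IsGalois ℚ L]
variable {I : Type} [Fintype I]
variable {P : PerSys L} {A : I → HS L}

section general

variable {S : Type} [Fintype S] [DecidableEq S]

lemma crd_add (x y : V S) : crd (x + y) = crd x + crd y := by
  funext o
  cases o <;> rfl

lemma crd_smul (a : ℂ) (x : V S) : crd (a • x) = a • crd x := by
  funext o
  cases o <;> rfl

/-- the coordinates, as a linear equivalence -/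
def crdE (S : Type) : V S ≃ₗ[ℂ] (Option (S × Fin 2 × Fin 2) → ℂ) where
  toFun := crd
  map_add' := fun x y => by
    funext o
    cases o <;> rfl
  map_smul' := fun a x => by
    funext o
    cases o <;> rfl
  invFun t := (t none, fun s => Matrix.of fun i j => t (some (s, i, j)))
  left_inv x := rfl
  right_inv t := by
    funext o
    cases o <;> rfl

/-- the transcendence degree and the logarithmic derivatives -/
theorem trdeg_log {c : V S} (hc : Inv c) :
    Algebra.trdeg ℚ (IntermediateField.adjoin ℚ (Set.range (crd c))) =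
      (Module.finrank ℂ (logSpace c) : Cardinal) := by
  classical
  have h1 := Pool.Agent.W537.TT.trdeg_eq (crd c)
  change Algebra.trdeg ℚ (IntermediateField.adjoin ℚ (Set.range (crd c))) = _ at h1
  rw [h1]
  congr 1
  have hu : ∀ s, IsUnit (c.2 s).det := fun s => isUnit_iff_ne_zero.2 (hc.2 s)
  let e : logSpace c ≃ₗ[ℂ] Pool.Agent.W537.TT.derSpace (crd c) :=
    { toFun := fun x => ⟨crd (c * x.1), by
        obtain ⟨D, h1, h2⟩ := x.2
        refine ⟨D, fun o => ?_⟩
        cases o with
        | none =>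
          change D c.1 = c.1 * x.1.1
          rw [h1, mul_inv_cancel_left₀ hc.1]
        | some q =>
          change D (c.2 q.1 q.2.1 q.2.2) = (c.2 q.1 * x.1.2 q.1) q.2.1 q.2.2
          rw [h2, ← Matrix.mul_assoc, Matrix.mul_nonsing_inv _ (hu _), Matrix.one_mul]
          rfl⟩
      invFun := fun w => ⟨(c.1⁻¹ * w.1 none, fun s => (c.2 s)⁻¹ *
          Matrix.of fun i j => w.1 (some (s, i, j))), by
        obtain ⟨D, hD⟩ := w.2
        refine ⟨D, ?_, fun s => ?_⟩
        · change c.1⁻¹ * w.1 none = _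
          rw [← hD none]
          rfl
        · change (c.2 s)⁻¹ * Matrix.of (fun i j => w.1 (some (s, i, j))) = _
          congr 1
          ext i j
          exact (hD (some (s, i, j))).symm⟩
      left_inv := by
        rintro ⟨x, hx⟩
        apply Subtype.ext
        refine Prod.ext ?_ (funext fun s => ?_)
        · change c.1⁻¹ * (c.1 * x.1) = x.1
          rw [inv_mul_cancel_left₀ hc.1]
        · change (c.2 s)⁻¹ * (c.2 s * x.2 s) = x.2 s
          rw [← Matrix.mul_assoc, Matrix.nonsing_inv_mul _ (hu s), Matrix.one_mul]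
      right_inv := by
        rintro ⟨w, hw⟩
        apply Subtype.ext
        funext o
        cases o with
        | none =>
          change c.1 * (c.1⁻¹ * w none) = w none
          rw [mul_inv_cancel_left₀ hc.1]
        | some q =>
          change (c.2 q.1 * ((c.2 q.1)⁻¹ * Matrix.of fun i j => w (some (q.1, i, j)))) q.2.1 q.2.2 =
            w (some q)
          rw [← Matrix.mul_assoc, Matrix.mul_nonsing_inv _ (hu _), Matrix.one_mul]
          rfl
      map_add' := by
        intro x y
        apply Subtype.ext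
        change crd (c * (x.1 + y.1)) = crd (c * x.1) + crd (c * y.1)
        rw [mul_add, crd_add]
      map_smul' := by
        intro a x
        apply Subtype.ext
        change crd (c * (a • x.1)) = a • crd (c * x.1)
        rw [← crd_smul]
        congr 1
        refine Prod.ext ?_ (funext fun s => ?_)
        · change c.1 * (a * x.1.1) = a * (c.1 * x.1.1)
          ring
        · change c.2 s * (a • x.1.2 s) = a • (c.2 s * x.1.2 s)
          rw [Matrix.mul_smul] }
  exact_mod_cast e.finrank_eq.symm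

variable {g : (ℂ ≃+* ℂ) →* Equiv.Perm S}

/-- stability under the automorphisms, in coordinates -/
lemma gstable_log {c : V S} (hg : ∀ σ : ℂ ≃+* ℂ, (∀ a : Kb, σ a = a) → g σ = 1)
    (h : IsRational g (logSpace c)) :
    GStable ((logSpace c).map (crdE S : V S →ₗ[ℂ] (Option (S × Fin 2 × Fin 2) → ℂ))) := by
  rintro σ hσ _ ⟨x, hx, rfl⟩
  refine ⟨_, h σ x hx, ?_⟩
  funext o
  cases o with
  | none => rfl
  | some q =>
    change ((x.2 ((g σ).symm q.1)).map σ) q.2.1 q.2.2 = σ (x.2 q.1 q.2.1 q.2.2)
    rw [hg σ hσ]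
    rfl

lemma lam_log {c : V S} (hg : ∀ σ : ℂ ≃+* ℂ, (∀ a : Kb, σ a = a) → g σ = 1)
    (h : IsRational g (logSpace c)) (lam : ℂ →ₗ[Kb] Kb) {x : V S} (hx : x ∈ logSpace c) :
    ((((lam x.1 : Kb) : ℂ)), fun s => (x.2 s).map fun z => ((lam z : Kb) : ℂ)) ∈ logSpace c := by
  obtain ⟨y, hy, hxy⟩ := gstable_lam (gstable_log hg h) lam (Submodule.mem_map_of_mem hx)
  have e : y = ((((lam x.1 : Kb) : ℂ)), fun s => (x.2 s).map fun z => ((lam z : Kb) : ℂ)) := by
    apply (crdE S).injective
    refine hxy.trans ?_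
    funext o
    cases o <;> rfl
  rw [← e]
  exact hy

/-- the space of the logarithmic derivatives of the block diagonal matrix is spanned by algebraic
matrices -/
lemma algSpan_big {c : V S} (hc : Inv c) (hg : ∀ σ : ℂ ≃+* ℂ, (∀ a : Kb, σ a = a) → g σ = 1)
    (h : IsRational g (logSpace c)) :
    Pool.Agent.W537.TT.AlgSpan (Pool.Agent.W537.TT.logSpace (big c)) := by
  have hclo := (Pool.Agent.W131.RK.t S c hc).2.2
  intro M hM
  obtain ⟨x, hx, rfl⟩ := (hclo M).1 hM
  have h1 := gstable_span _ _ rfl (gstable_log hg h) (Submodule.mem_map_of_mem hx)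
  -- the linear map
  let Λ : (Option (S × Fin 2 × Fin 2) → ℂ) →ₗ[ℂ] Matrix (Option (S × Fin 2)) (Option (S × Fin 2)) ℂ :=
    { toFun := fun t => big ((crdE S).symm t)
      map_add' := by
        intro t u
        ext a b
        cases a <;> cases b <;> simp [big]
        split_ifs <;> simp
      map_smul' := by
        intro r t
        ext a b
        cases a <;> cases b <;> simp [big] }
  have h2 : Λ (crdE S x) ∈ (Submodule.span ℂ {w | w ∈ (logSpace c).map (crdE S : V S →ₗ[ℂ] (Option
      (S × Fin 2 × Fin 2) → ℂ)) ∧ ∀ i, IsAlgebraic ℚ (w i)}).map Λ := ⟨_, h1, rfl⟩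
  rw [Submodule.map_span] at h2
  have h3 : Λ (crdE S x) = big x := by
    change big ((crdE S).symm (crdE S x)) = big x
    rw [LinearEquiv.symm_apply_apply]
  rw [h3] at h2
  refine Submodule.span_mono ?_ h2
  rintro _ ⟨w, ⟨⟨y, hy, rfl⟩, hw⟩, rfl⟩
  have h4 : Λ (crdE S y) = big y := by
    change big ((crdE S).symm (crdE S y)) = big y
    rw [LinearEquiv.symm_apply_apply]
  change Λ (crdE S y) ∈ _
  rw [h4]
  refine ⟨(hclo _).2 ⟨y, hy, rfl⟩, fun a b => ?_⟩
  have hw' : ∀ o, crd y o ∈ Kb := fun o => mem_algebraicClosure_iff.2 (hw o)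
  cases a with
  | none =>
    cases b with
    | none => exact hw' none
    | some q => exact zero_mem _
  | some p =>
    cases b with
    | none => exact zero_mem _
    | some q =>
      change (if p.1 = q.1 then y.2 p.1 p.2 q.2 else 0) ∈ Kb
      split_ifs
      · exact hw' (some (p.1, p.2, q.2))
      · exact zero_mem _

/-- the logarithmic derivatives form a Lie algebra -/
lemma isLie_log {c : V S} (hc : Inv c) (hg : ∀ σ : ℂ ≃+* ℂ, (∀ a : Kb, σ a = a) → g σ = 1)
    (h : IsRational g (logSpace c)) : IsLie (logSpace c) := by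
  have hclo := (Pool.Agent.W131.RK.t S c hc).2.2
  intro x hx y hy
  have h1 := Pool.Agent.W537.TT.bracket_mem (Pool.Agent.W481.RK.big_unit hc)
    (algSpan_big hc hg h) ((hclo _).2 ⟨x, hx, rfl⟩) ((hclo _).2 ⟨y, hy, rfl⟩)
  obtain ⟨z, hz, hzz⟩ := (hclo _).1 h1
  have h2 : big (x * y - y * x) = big z := by
    rw [← hzz, ← Pool.Agent.W481.RK.big_mul, ← Pool.Agent.W481.RK.big_mul]
    ext a b
    cases a <;> cases b <;> simp [big]
    split_ifs <;> simp
  rw [Pool.Agent.W481.RK.big_inj h2]
  exact hz

end general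

lemma period_inv (hA : ∀ i, P.IsAV (A i)) : Inv (period P.per A) :=
  ⟨tau_ne, fun s => P.det_ne _ (hA _) _⟩

lemma gS_fix (σ : ℂ ≃+* ℂ) (hσ : ∀ a : Kb, σ a = a) : gS L I σ = 1 := by
  refine Equiv.ext fun s => Prod.ext rfl (RingHom.ext fun x => ?_)
  exact hσ ⟨s.2 x, mem_algebraicClosure_iff.2 (emb_alg s.2 x)⟩

/-- the space of the logarithmic derivatives, if it is defined over `ℚ` -/
def sys {Sp : I → Matrix (Fin 2) (Fin 2) L} (hA : ∀ i, P.IsAV (A i))
    (hS : ∀ i, IsPol L (A i).D (Sp i)) (h : IsRational (gS L I) (logSpace (period P.per A))) :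
    LSys A Sp where
  S := logSpace (period P.per A)
  brk := isLie_log (period_inv hA) gS_fix h
  pol x hx i φ := by
    obtain ⟨D, rfl⟩ := exists_ld hx
    exact (ld_HH hA hS D).pol i φ
  sq x hx i hi φ := by
    obtain ⟨D, rfl⟩ := exists_ld hx
    exact (ld_HH hA hS D).sq i hi φ
  gal := h
  lam lam x hx := lam_log gS_fix h lam hx

/-- the main step -/
theorem dmu_mem (hL : IsAbelian L) (hW : Wuestholz P) (hA : ∀ i, P.IsAV (A i))
    (hc : ∀ i, (A i).IsSimple ∨ (A i).IsSquare)
    (h : IsRational (gS L I) (logSpace (period P.per A))) :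
    dmu A ∈ logSpace (period P.per A) := by
  choose Sp hS using fun i => (A i).pol
  let b : LSys A Sp := sys hA hS h
  have hld : ∀ D : Dv, MM b (ld P A D) (D tau / tau) := fun D => ld_mem_log A D
  have hE : EndHodge P := by
    intro B hB _ T hT
    refine hW.hom B B hB hB T fun χ => ?_
    obtain ⟨M, hM, hMT⟩ := hT χ
    rw [hMT, Matrix.mul_assoc, Matrix.mul_nonsing_inv _ (per_unit hB χ), Matrix.mul_one]
    exact hM
  have hno : ∀ s : Sl I L, ¬ (A s.1).IsSquare → NoEig b s :=
    fun s hs => noEig hE hW hA hld s ((hc s.1).resolve_right hs)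
  have hsub := subdirect hno
  -- the semisimple part
  have hD : MM b (fun s => tl ((A s.1).D s.2)) 0 := by
    refine MM_of_rel hsub _ (fun s => trace_tl _) (fun s hs => ?_) (fun s t N hs ht hN =>
      hN.hodge hW hsub hA hld hS hs)
    rcases hs s.2 with h | h <;> rw [h]
    · exact tl_one
    · exact tl_neg_one
  -- the center
  obtain ⟨E, hE1, hE2⟩ := center Pool.Agent.W108.RK.ROS.t hL hW hA (fun τ D => by
      obtain ⟨E, hE⟩ := exists_ld (h τ _ (ld_mem_log A D))
      refine ⟨E, (congrArg Prod.fst hE).symm, fun s => ?_⟩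
      have h1 := congrFun (congrArg Prod.snd hE) s
      change ((ld P A D (actS τ.symm s)).map τ) = ld P A E s at h1
      rw [← h1, Matrix.trace_fin_two, Matrix.trace_fin_two, map_add]
      rfl) (fun lam D => by
      obtain ⟨E, hE⟩ := exists_ld (lam_log gS_fix h lam (ld_mem_log A D))
      refine ⟨E, (congrArg Prod.fst hE).symm, fun s => ?_⟩
      have h1 := congrFun (congrArg Prod.snd hE) s
      change ((ld P A D s).map fun z => ((lam z : Kb) : ℂ)) = ld P A E s at h1
      rw [← h1, Matrix.trace_fin_two, Matrix.trace_fin_two, map_add]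
      push_cast
      rfl)
  have hc1 := (hld E).add (((hld E).tl' hsub).smul (-1))
  have hc2 := hc1.add (hD.smul (1 / 2))
  have e : ((E tau / tau + -1 * 0 + 1 / 2 * 0, ld P A E + (-1 : ℂ) • (fun s => tl (ld P A E s)) +
      (1 / 2 : ℂ) • (fun s : Sl I L => tl ((A s.1).D s.2))) : V (Sl I L)) = dmu A := by
    refine Prod.ext ?_ (funext fun s => ?_)
    · change E tau / tau + -1 * 0 + 1 / 2 * 0 = 1
      rw [hE1]
      ring
    · change ld P A E s + (-1 : ℂ) • tl (ld P A E s) + (1 / 2 : ℂ) • tl ((A s.1).D s.2) =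
        (1 / 2 : ℂ) • (1 + (A s.1).D s.2)
      have h1 : ld P A E s + (-1 : ℂ) • tl (ld P A E s) =
          ((rk (A s.1) s.2 : ℂ) / 2) • (1 : M2 ℂ) := by
        rw [← hE2 s, neg_smul, one_smul, tl]
        abel
      have h2 : (A s.1).D s.2 = tl ((A s.1).D s.2) + ((rk (A s.1) s.2 : ℂ) - 1) • (1 : M2 ℂ) := by
        conv_lhs => rw [add_tl ((A s.1).D s.2), rk_trace, mul_div_cancel_left₀ _ (two_ne_zero)]
      rw [h1]
      conv_rhs => rw [h2]
      module
  have hc3 : ((E tau / tau + -1 * 0 + 1 / 2 * 0, ld P A E + (-1 : ℂ) • (fun s => tl (ld P A E s)) +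
      (1 / 2 : ℂ) • (fun s : Sl I L => tl ((A s.1).D s.2))) : V (Sl I L)) ∈
        logSpace (period P.per A) := hc2
  rw [e] at hc3
  exact hc3

lemma mt_rational (A : I → HS L) : IsRational (gS L I) (mt A) := by
  intro σ x hx
  refine (Submodule.mem_sInf).2 fun W hW => ?_
  exact hW.1 σ x ((Submodule.mem_sInf).1 hx W hW)

/-- the main theorem -/
theorem main (hL : IsAbelian L) (P : PerSys L) (hW : Wuestholz P) (A : I → HS L)
    (hA : ∀ i, P.IsAV (A i)) (hc : ∀ i, (A i).IsSimple ∨ (A i).IsSquare) :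
    List.TFAE [
      Algebra.trdeg ℚ (IntermediateField.adjoin ℚ (Set.range (crd (period P.per A)))) =
        (Module.finrank ℂ (mt A) : Cardinal),
      IsTorsor (gS L I) (period P.per A),
      IsRational (gS L I) (logSpace (period P.per A)),
      logSpace (period P.per A) = mt A] := by
  have hinv := period_inv hA
  tfae_have 3 → 4 := by
    intro h
    refine le_antisymm (P.deligne I A hA) (sInf_le ?_)
    exact ⟨h, isLie_log hinv gS_fix h, dmu_mem hL hW hA hc h⟩
  tfae_have 4 → 3 := by
    intro h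
    rw [h]
    exact mt_rational A
  tfae_have 4 → 1 := by
    intro h
    rw [trdeg_log hinv, h]
  tfae_have 1 → 4 := by
    intro h
    rw [trdeg_log hinv] at h
    have h1 : Module.finrank ℂ (logSpace (period P.per A)) = Module.finrank ℂ (mt A) := by
      exact_mod_cast h
    have : FiniteDimensional ℂ (V (Sl I L)) := inferInstance
    exact Submodule.eq_of_le_of_finrank_eq (P.deligne I A hA) h1
  tfae_have 2 → 3 := fun h =>
    Pool.Agent.W481.RK.t Pool.Agent.W131.RK.t (Sl I L) (gS L I) _ hinv h
  tfae_have 3 → 2 := fun h =>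
    Pool.Agent.W654.RK.t Pool.Agent.W131.RK.t (Sl I L) (gS L I) _ hinv
      (algSpan_big hinv gS_fix h) h
  tfae_finish

end

end Pool.Agent.W519.E
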