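import Pool.Agent.W519.E.Par

/-!
# Twists of Hodge structures
-/

set_option autoImplicit false
set_option linter.unusedSectionVars false

namespace Pool.Agent.W519.E

open NumberField Pool.Agent.H204R3.CM Pool.Agent.W547.KB Pool.Agent.W537.PC Matrix
open Pool.Agent.W519.Q hiding Kb sL mem_sL NoEig subdirect PeriodSystem Semisimple SemisimpleAt
  HomHodge IC inter_ic pm ld pm_mul_ld ld_inj ld_pol ld_sq EV COM ev_of EndHodge no_split noEig
  comm_all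

noncomputable section

variable {L : Type} [Field L] [NumberField L] [IsCMField L]

lemma im_sign [IsGalois ℚ L] {Φ : Set (L →+* ℂ)} (hΦ : IsCMType Φ) {ξ : L} (hξ : cc L ξ = - ξ)
    (hpos : ∀ φ ∈ Φ, 0 < (φ ξ).im) (φ : L →+* ℂ) :
    φ ξ = Complex.I * ((φ ξ).im : ℂ) ∧ (φ ∈ Φ → 0 < (φ ξ).im) ∧ (φ ∉ Φ → (φ ξ).im < 0) := by
  refine ⟨?_, hpos φ, fun h => ?_⟩
  · apply Complex.ext
    · simp [re_zero hξ φ]
    · simp
  · have h' : ComplexEmbedding.conjugate φ ∈ Φ := by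
      by_contra hc
      exact h ((hΦ φ).2 hc)
    have h2 := hpos _ h'
    rw [ComplexEmbedding.conjugate_coe_eq, Complex.conj_im] at h2
    linarith

/-- a totally real element with given signs -/
theorem exists_real [IsGalois ℚ L] {Φ Ψ : Set (L →+* ℂ)} (hΦ : IsCMType Φ) (hΨ : IsCMType Ψ) :
    ∃ x : L, ∀ φ : L →+* ℂ, ∃ r : ℝ, φ x = (r : ℂ) ∧ ((φ ∈ Φ ↔ φ ∈ Ψ) → 0 < r) ∧
      (¬ (φ ∈ Φ ↔ φ ∈ Ψ) → r < 0) := by
  obtain ⟨ξ, hξ, hpos⟩ := exists_xi hΦ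
  obtain ⟨η, hη, hpos'⟩ := exists_xi hΨ
  refine ⟨ξ / η, fun φ => ?_⟩
  obtain ⟨a1, a2, a3⟩ := im_sign hΦ hξ hpos φ
  obtain ⟨b1, b2, b3⟩ := im_sign hΨ hη hpos' φ
  refine ⟨(φ ξ).im / (φ η).im, ?_, fun h => ?_, fun h => ?_⟩
  · rw [map_div₀, a1, b1]
    push_cast
    rw [mul_div_mul_left _ _ Complex.I_ne_zero]
    simp
  · by_cases h1 : φ ∈ Φ
    · exact div_pos (a2 h1) (b2 (h.1 h1))
    · exact div_pos_of_neg_of_neg (a3 h1) (b3 fun h2 => h1 (h.2 h2))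
  · by_cases h1 : φ ∈ Φ
    · have h2 : φ ∉ Ψ := fun h2 => h ⟨fun _ => h2, fun _ => h1⟩
      exact div_neg_of_pos_of_neg (a2 h1) (b3 h2)
    · have h2 : φ ∈ Ψ := by
        by_contra h2
        exact h ⟨fun h3 => absurd h3 h1, fun h3 => absurd h3 h2⟩
      exact div_neg_of_neg_of_pos (a3 h1) (b2 h2)

/-- the sign -/
def sg (Φ Ψ : Set (L →+* ℂ)) (χ : L →+* ℂ) : ℂ := by
  classical
  exact if (χ ∈ Φ ↔ χ ∈ Ψ) then 1 else -1

lemma sg_pos {Φ Ψ : Set (L →+* ℂ)} {χ : L →+* ℂ} (h : χ ∈ Φ ↔ χ ∈ Ψ) : sg Φ Ψ χ = 1 := by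
  rw [sg, if_pos h]

lemma sg_neg {Φ Ψ : Set (L →+* ℂ)} {χ : L →+* ℂ} (h : ¬ (χ ∈ Φ ↔ χ ∈ Ψ)) : sg Φ Ψ χ = -1 := by
  rw [sg, if_neg h]

lemma sg_cases (Φ Ψ : Set (L →+* ℂ)) (χ : L →+* ℂ) : sg Φ Ψ χ = 1 ∨ sg Φ Ψ χ = -1 := by
  by_cases h : χ ∈ Φ ↔ χ ∈ Ψ
  · exact Or.inl (sg_pos h)
  · exact Or.inr (sg_neg h)

lemma sg_conj {Φ Ψ : Set (L →+* ℂ)} (hΦ : IsCMType Φ) (hΨ : IsCMType Ψ) (χ : L →+* ℂ) :
    sg Φ Ψ (ComplexEmbedding.conjugate χ) = sg Φ Ψ χ := by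
  have h1 := hΦ χ
  have h2 := hΨ χ
  by_cases h : χ ∈ Φ ↔ χ ∈ Ψ
  · rw [sg_pos h, sg_pos]
    tauto
  · rw [sg_neg h, sg_neg]
    tauto

/-- the twist of a Hodge structure by the quotient of two CM types -/
def twHS [IsGalois ℚ L] (A : HS L) {Φ Ψ : Set (L →+* ℂ)} (hΦ : IsCMType Φ) (hΨ : IsCMType Ψ) :
    HS L where
  D χ := sg Φ Ψ χ • A.D χ
  sq χ := by
    rw [Matrix.smul_mul, Matrix.mul_smul, A.sq, smul_smul]
    rcases sg_cases Φ Ψ χ with h | h <;> rw [h] <;> simp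
  conj χ := by
    rw [sg_conj hΦ hΨ, A.conj]
    rcases sg_cases Φ Ψ χ with h | h <;> rw [h]
    · rw [one_smul, one_smul]
    · rw [neg_smul, one_smul, neg_smul, one_smul, neg_neg]
      ext i j
      simp
  pol := by
    obtain ⟨S, hS⟩ := A.pol
    obtain ⟨x, hx⟩ := exists_real hΦ hΨ
    have hmap : ∀ φ : L →+* ℂ, (x • S).map φ = φ x • S.map φ := by
      intro φ
      ext i j
      simp
    have hconj : ∀ φ : L →+* ℂ, ComplexEmbedding.conjugate φ x = φ x := by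
      intro φ
      obtain ⟨r, hr, -⟩ := hx φ
      rw [ComplexEmbedding.conjugate_coe_eq, hr, Complex.conj_ofReal]
    refine ⟨x • S, fun φ => ?_, fun φ => ?_, fun φ v hv => ?_⟩
    · rw [hmap, hmap, hconj, Matrix.transpose_smul, hS.1 φ, smul_neg]
    · dsimp only
      rw [hmap, sg_conj hΦ hΨ, Matrix.transpose_smul, Matrix.smul_mul, Matrix.mul_smul, hS.2.1 φ,
        Matrix.smul_mul, Matrix.mul_smul, smul_neg, smul_neg, smul_comm]
    · have h1 := hS.2.2 φ v hv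
      obtain ⟨r, hr, hr1, hr2⟩ := hx φ
      dsimp only
      rw [hmap, hr]
      by_cases h : φ ∈ Φ ↔ φ ∈ Ψ
      · rw [sg_pos h, one_smul, Matrix.smul_mulVec, dotProduct_smul, smul_eq_mul, mul_left_comm,
          Complex.re_ofReal_mul]
        exact mul_pos (hr1 h) h1
      · rw [sg_neg h, neg_smul, one_smul, Matrix.neg_mulVec, star_neg, Matrix.smul_mulVec,
          dotProduct_smul, smul_eq_mul, mul_left_comm, Complex.re_ofReal_mul, Matrix.mulVec_neg,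
          dotProduct_neg, mul_neg, Complex.neg_re]
        exact mul_pos_of_neg_of_neg (hr2 h) (neg_lt_zero.2 h1)

/-- the Hodge structure with the action of `L` changed by an automorphism -/
def galHS [IsGalois ℚ L] (A : HS L) (γ : L ≃ₐ[ℚ] L) : HS L where
  D χ := A.D (gc γ χ)
  sq χ := A.sq _
  conj χ := by rw [gc_conj, A.conj]
  pol := by
    obtain ⟨S, hS⟩ := A.pol
    have hmap : ∀ φ : L →+* ℂ, (S.map γ).map φ = S.map (gc γ φ) := by
      intro φ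
      ext i j
      rfl
    refine ⟨S.map γ, fun φ => ?_, fun φ => ?_, fun φ v hv => ?_⟩
    · rw [hmap, hmap, gc_conj]
      exact hS.1 _
    · dsimp only
      rw [hmap, gc_conj]
      exact hS.2.1 _
    · rw [hmap]
      exact hS.2.2 _ v hv

end

end Pool.Agent.W519.E
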