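import Pool.Agent.W519.E.Eig

/-!
# Parity of the types
-/

set_option autoImplicit false
set_option linter.unusedSectionVars false

namespace Pool.Agent.W519.E

open NumberField Pool.Agent.H204R3.CM Pool.Agent.W547.KB Pool.Agent.W537.PC Matrix
open Pool.Agent.W519.Q hiding Kb sL mem_sL NoEig subdirect PeriodSystem Semisimple SemisimpleAt
  HomHodge IC inter_ic pm ld pm_mul_ld ld_inj ld_pol ld_sq EV COM ev_of EndHodge no_split noEig
  comm_all

noncomputable section

variable {L : Type} [Field L] [NumberField L] [IsCMField L]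
variable {I : Type} [Fintype I]
variable [IsGalois ℚ L]
variable {A : I → HS L} {Sp : I → Matrix (Fin 2) (Fin 2) L} {b : LSys A Sp}

/-- matrices commuting with a component -/
theorem comm_all (hsub : Subdirect (sL b) (fun s => ¬ (A s.1).IsSquare)) {s : Sl I L}
    (hs : ¬ (A s.1).IsSquare) {C : M2 ℂ}
    (h : ∀ W ∈ sL b, C * up ℂ W s = up ℂ W s * C) : C = C 0 0 • (1 : M2 ℂ) := by
  apply scalar_of_comm
  have key : ∀ E : M2 Kb, E.trace = 0 → C * mp E = mp E * C := by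
    intro E hE
    obtain ⟨W, hW, hWs⟩ := hsub.surj s hs E hE
    have := h W hW
    rw [up, hWs] at this
    exact this
  have e1 : mp (ee Kb) = ee ℂ := by
    ext i j; fin_cases i <;> fin_cases j <;> simp [ee, mp]
  have e2 : mp (ff Kb) = ff ℂ := by
    ext i j; fin_cases i <;> fin_cases j <;> simp [ff, mp]
  have e3 : mp (hh Kb) = hh ℂ := by
    ext i j; fin_cases i <;> fin_cases j <;> simp [hh, mp]
  have k1 := key _ tr_ee
  have k2 := key _ tr_ff
  have k3 := key _ tr_hh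
  rw [e1] at k1
  rw [e2] at k2
  rw [e3] at k3
  intro W hW
  rw [decomp hW]
  simp only [Matrix.mul_add, Matrix.add_mul, Matrix.mul_smul, Matrix.smul_mul, k1, k2, k3]

/-- the relation respects the hermitian forms up to a real factor -/
theorem IC.herm (hsub : Subdirect (sL b) (fun s => ¬ (A s.1).IsSquare))
    (hS : ∀ i, IsPol L (A i).D (Sp i)) {i j : I} {φ ψ : L →+* ℂ} (hs : ¬ (A i).IsSquare) {N : M2 ℂ}
    (hN : IC b (i, φ) (j, ψ) N) :
    ∃ μ : ℝ, μ ≠ 0 ∧ ∀ x, Hf ((Sp j).map ψ) (N *ᵥ x) = μ * Hf ((Sp i).map φ) x := by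
  have hN' := hN.gal cnj
  have ec1 : actS cnj (i, φ) = (i, ComplexEmbedding.conjugate φ) := by
    rw [actS, act_cnj]
  have ec2 : actS cnj (j, ψ) = (j, ComplexEmbedding.conjugate ψ) := by
    rw [actS, act_cnj]
  rw [ec1, ec2] at hN'
  set S := (Sp i).map φ with hSdef
  set S' := (Sp j).map ψ with hS'def
  set Nb := N.map cnj with hNb
  have hSd : S.det ≠ 0 := pol_det (hS i) φ
  have hSd' : S'.det ≠ 0 := pol_det (hS j) ψ
  have hu : IsUnit S.det := isUnit_iff_ne_zero.2 hSd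
  set B := Nᵀ * S' * Nb with hB
  -- the relation
  have h1 : ∀ W ∈ sL b, (B * S⁻¹)ᵀ * up ℂ W (i, φ) = up ℂ W (i, φ) * (B * S⁻¹)ᵀ := by
    intro W hW
    set V := up ℂ W with hV
    have hVt : ∀ s, (V s).trace = 0 := up_trace hW.2
    have a1 := hN.eq V hW.1 hVt
    have a2 := hN'.eq V hW.1 hVt
    have a3 := hW.1.pol i φ
    have a4 := hW.1.pol j ψ
    rw [zero_smul] at a3 a4
    have b3 : S * V (i, ComplexEmbedding.conjugate φ) = - ((V (i, φ))ᵀ * S) :=
      eq_neg_of_add_eq_zero_right a3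
    have b4 : (V (j, ψ))ᵀ * S' = - (S' * V (j, ComplexEmbedding.conjugate ψ)) :=
      eq_neg_of_add_eq_zero_left a4
    have c1 : (V (i, φ))ᵀ * B = - (B * V (i, ComplexEmbedding.conjugate φ)) := by
      calc (V (i, φ))ᵀ * B = (N * V (i, φ))ᵀ * S' * Nb := by
            rw [hB, Matrix.transpose_mul]; simp only [Matrix.mul_assoc]
        _ = Nᵀ * ((V (j, ψ))ᵀ * S') * Nb := by
            rw [← a1, Matrix.transpose_mul]; simp only [Matrix.mul_assoc]
        _ = - (Nᵀ * S' * (V (j, ComplexEmbedding.conjugate ψ) * Nb)) := by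
            rw [b4]; simp only [Matrix.mul_neg, Matrix.neg_mul, Matrix.mul_assoc]
        _ = - (B * V (i, ComplexEmbedding.conjugate φ)) := by
            rw [a2, hB]; simp only [Matrix.mul_assoc]
    have c2 : V (i, ComplexEmbedding.conjugate φ) = - (S⁻¹ * (V (i, φ))ᵀ * S) := by
      have := congrArg (fun X => S⁻¹ * X) b3
      simp only [← Matrix.mul_assoc] at this
      rw [Matrix.nonsing_inv_mul _ hu, Matrix.one_mul, Matrix.mul_neg] at this
      rw [this, Matrix.mul_assoc]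
    rw [c2, Matrix.mul_neg, neg_neg] at c1
    have c3 : (V (i, φ))ᵀ * (B * S⁻¹) = B * S⁻¹ * (V (i, φ))ᵀ := by
      rw [← Matrix.mul_assoc, c1]
      simp only [Matrix.mul_assoc, Matrix.mul_nonsing_inv _ hu, Matrix.mul_one]
    have c4 := congrArg Matrix.transpose c3
    rw [Matrix.transpose_mul, Matrix.transpose_mul _ ((V (i, φ))ᵀ), Matrix.transpose_transpose] at c4
    exact c4
  have h2 := comm_all hsub (s := (i, φ)) hs h1
  set m := (B * S⁻¹)ᵀ 0 0
  have h3 : B = m • S := by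
    have h4 := congrArg Matrix.transpose h2
    rw [Matrix.transpose_transpose, Matrix.transpose_smul, Matrix.transpose_one] at h4
    have h5 := congrArg (fun X => X * S) h4
    simp only [Matrix.mul_assoc, Matrix.nonsing_inv_mul _ hu, Matrix.mul_one, Matrix.smul_mul,
      Matrix.one_mul] at h5
    exact h5
  -- the factor is real
  have e0 : ∀ M N : M2 ℂ, (M * N).map cnj = M.map cnj * N.map cnj := fun M N => Matrix.map_mul
  have eN : Nb.map cnj = N := by
    ext p q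
    simp [hNb]
  have eS : Sᵀ = - S.map cnj := (hS i).1 φ
  have eS' : S'ᵀ = - S'.map cnj := (hS j).1 ψ
  have h5 : Bᵀ = - B.map cnj := by
    rw [hB, Matrix.transpose_mul, Matrix.transpose_mul, Matrix.transpose_transpose, eS', e0, e0, eN]
    have : Nᵀ.map cnj = Nbᵀ := rfl
    rw [this]
    simp only [Matrix.mul_neg, Matrix.neg_mul, Matrix.mul_assoc]
  have h6 : m • S.map cnj = cnj m • S.map cnj := by
    rw [h3, Matrix.transpose_smul, eS] at h5
    have : (m • S).map cnj = cnj m • S.map cnj := by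
      ext p q
      simp
    rw [this, smul_neg] at h5
    exact neg_injective h5
  have hS0 : S.map cnj ≠ 0 := by
    intro h0
    apply hSd
    have : S = 0 := by
      ext p q
      have := congrFun (congrFun h0 p) q
      simpa using this
    rw [this, Matrix.det_fin_two]
    simp
  have h7 : m = cnj m := by
    have : (m - cnj m) • S.map cnj = 0 := by rw [sub_smul, h6, sub_self]
    exact sub_eq_zero.1 ((smul_eq_zero.1 this).resolve_right hS0)
  obtain ⟨μ, hμ⟩ : ∃ μ : ℝ, (μ : ℂ) = m := by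
    have h8 : (starRingEnd ℂ) m = m := h7.symm
    exact ⟨m.re, Complex.conj_eq_iff_re.1 h8⟩
  refine ⟨μ, ?_, fun x => ?_⟩
  · intro h0
    have : B = 0 := by rw [h3, ← hμ, h0]; simp
    have h8 : B.det = N.det * S'.det * Nb.det := by
      rw [hB, Matrix.det_mul, Matrix.det_mul, Matrix.det_transpose]
    rw [this] at h8
    have h9 : (0 : M2 ℂ).det = 0 := by
      rw [Matrix.det_fin_two]; simp
    rw [h9] at h8
    exact mul_ne_zero (mul_ne_zero hN.det hSd') hN'.det h8.symm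
  · have h8 : (N *ᵥ x) ⬝ᵥ (S' *ᵥ star (N *ᵥ x)) = m * (x ⬝ᵥ (S *ᵥ star x)) := by
      have e1 : star (N *ᵥ x) = Nb *ᵥ star x := by
        funext p
        fin_cases p <;> simp [hNb, Matrix.mulVec, dotProduct, Fin.sum_univ_two]
      rw [e1, Matrix.mulVec_mulVec, ← Matrix.vecMul_transpose, ← Matrix.dotProduct_mulVec,
        Matrix.mulVec_mulVec, ← Matrix.mul_assoc, ← hB, h3, Matrix.smul_mulVec, dotProduct_smul,
        smul_eq_mul]
    rw [Hf, Hf, h8, ← hμ]
    have : -Complex.I * ((μ : ℂ) * (x ⬝ᵥ (S *ᵥ star x))) =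
      (μ : ℂ) * (-Complex.I * (x ⬝ᵥ (S *ᵥ star x))) := by ring
    rw [this, Complex.re_ofReal_mul]

/-- parity -/
theorem IC.parity (hsub : Subdirect (sL b) (fun s => ¬ (A s.1).IsSquare))
    (hS : ∀ i, IsPol L (A i).D (Sp i)) {i j : I} {φ ψ : L →+* ℂ} (hs : ¬ (A i).IsSquare) {N : M2 ℂ}
    (hN : IC b (i, φ) (j, ψ) N) : rk (A i) φ = 1 ↔ rk (A j) ψ = 1 := by
  obtain ⟨μ, hμ, h⟩ := hN.herm hsub hS hs
  rw [rk_mid_iff (hS i), rk_mid_iff (hS j)]
  have hu : IsUnit N.det := isUnit_iff_ne_zero.2 hN.det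
  have h' : ∀ y, Hf ((Sp j).map ψ) y = μ * Hf ((Sp i).map φ) (N⁻¹ *ᵥ y) := by
    intro y
    rw [← h, Matrix.mulVec_mulVec, Matrix.mul_nonsing_inv _ hu, Matrix.one_mulVec]
  constructor
  · rintro ⟨⟨x, hx⟩, ⟨y, hy⟩⟩
    rcases lt_or_gt_of_ne hμ with h0 | h0
    · refine ⟨⟨N *ᵥ y, ?_⟩, ⟨N *ᵥ x, ?_⟩⟩
      · rw [h]
        exact mul_pos_of_neg_of_neg h0 hy
      · rw [h]
        exact mul_neg_of_neg_of_pos h0 hx
    · refine ⟨⟨N *ᵥ x, ?_⟩, ⟨N *ᵥ y, ?_⟩⟩
      · rw [h]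
        exact mul_pos h0 hx
      · rw [h]
        exact mul_neg_of_pos_of_neg h0 hy
  · rintro ⟨⟨x, hx⟩, ⟨y, hy⟩⟩
    rw [h'] at hx hy
    rcases lt_or_gt_of_ne hμ with h0 | h0
    · refine ⟨⟨N⁻¹ *ᵥ y, ?_⟩, ⟨N⁻¹ *ᵥ x, ?_⟩⟩
      · exact (neg_iff_pos_of_mul_neg hy).1 h0
      · exact (neg_iff_neg_of_mul_pos hx).1 h0
    · refine ⟨⟨N⁻¹ *ᵥ x, ?_⟩, ⟨N⁻¹ *ᵥ y, ?_⟩⟩
      · exact (pos_iff_pos_of_mul_pos hx).1 h0
      · exact (pos_iff_neg_of_mul_neg hy).1 h0

end

end Pool.Agent.W519.E
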