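import Pool.Agent.W519.E.Rel
import Pool.Agent.W537.TT.Trd

/-!
# The logarithmic derivatives of the period matrices and the relations given by Hodge classes
-/

set_option autoImplicit false
set_option linter.unusedSectionVars false

namespace Pool.Agent.W519.E

open NumberField Pool.Agent.H204R3.CM Pool.Agent.W547.KB Pool.Agent.W537.PC Matrix
open Pool.Agent.W519.Q hiding Kb sL mem_sL NoEig subdirect PeriodSystem Semisimple SemisimpleAt
  HomHodge IC inter_ic pm ld pm_mul_ld ld_inj ld_pol ld_sq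

noncomputable section

variable {L : Type} [Field L] [NumberField L] [IsCMField L]
variable {I : Type} [Fintype I]
variable (P : PerSys L)

/-- the logarithmic derivative -/
def ld0 (B : HS L) (D : Dv) (χ : L →+* ℂ) : M2 ℂ := (P.per B χ)⁻¹ * dM D (P.per B χ)

/-- the logarithmic derivatives -/
def ld (A : I → HS L) (D : Dv) (s : Sl I L) : M2 ℂ := ld0 P (A s.1) D s.2

variable {P}

lemma per_unit {B : HS L} (hB : P.IsAV B) (χ : L →+* ℂ) : IsUnit (P.per B χ).det :=
  isUnit_iff_ne_zero.2 (P.det_ne _ hB χ)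

lemma per_mul_ld0 {B : HS L} (hB : P.IsAV B) (D : Dv) (χ : L →+* ℂ) :
    P.per B χ * ld0 P B D χ = dM D (P.per B χ) := by
  rw [ld0, ← Matrix.mul_assoc, Matrix.mul_nonsing_inv _ (per_unit hB χ), Matrix.one_mul]

lemma ld_mem_log (A : I → HS L) (D : Dv) :
    ((D tau / tau, ld P A D) : V (Sl I L)) ∈ logSpace (period P.per A) := by
  refine ⟨D.restrictScalars ℤ, ?_, fun s => rfl⟩
  change D tau / tau = tau⁻¹ * D tau
  rw [div_eq_inv_mul]

lemma exists_ld {A : I → HS L} {x : V (Sl I L)} (hx : x ∈ logSpace (period P.per A)) :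
    ∃ D : Dv, x = (D tau / tau, ld P A D) := by
  obtain ⟨D, h1, h2⟩ := hx
  obtain ⟨E, hE⟩ := Pool.Agent.W537.TT.exists_derK (K := Kb) D (fun a => by
    exact Pool.Agent.W537.DB.der_alg D (alg_coe a))
  refine ⟨E, Prod.ext ?_ (funext fun s => ?_)⟩
  · rw [h1, hE, div_eq_inv_mul]
    rfl
  · rw [h2]
    change _ = (P.per (A s.1) s.2)⁻¹ * dM E (P.per (A s.1) s.2)
    congr 1
    ext i j
    exact (hE _).symm

/-- the theorem of Deligne -/
theorem in_W {A : I → HS L} (hA : ∀ i, P.IsAV (A i)) {W : Submodule ℂ (V (Sl I L))}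
    (h1 : IsRational (gS L I) W) (h2 : IsLie W) (h3 : dmu A ∈ W) (D : Dv) :
    ((D tau / tau, ld P A D) : V (Sl I L)) ∈ W :=
  (sInf_le (show W ∈ {W | IsRational (gS L I) W ∧ IsLie W ∧ dmu A ∈ W} from ⟨h1, h2, h3⟩))
    (P.deligne I A hA (ld_mem_log A D))

lemma tw_gS (σ : ℂ ≃+* ℂ) (x : V (Sl I L)) : tw (gS L I) σ x = (σ x.1, galM σ x.2) := rfl

lemma comm_eq (x y : V (Sl I L)) : x * y - y * x = ((0 : ℂ), brS x.2 y.2) := by
  refine Prod.ext ?_ (funext fun s => ?_)
  · change x.1 * y.1 - y.1 * x.1 = 0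
    ring
  · rfl

lemma dmu_trace (A : I → HS L) (s : Sl I L) : ((dmu A).2 s).trace = rk (A s.1) s.2 := by
  change ((1 / 2 : ℂ) • (1 + (A s.1).D s.2)).trace = _
  rw [Matrix.trace_smul, Matrix.trace_add, Matrix.trace_one, rk_trace, smul_eq_mul]
  simp
  ring

lemma dmu_tl (A : I → HS L) (s : Sl I L) : tl ((dmu A).2 s) = (1 / 2 : ℂ) • tl ((A s.1).D s.2) := by
  change tl ((1 / 2 : ℂ) • (1 + (A s.1).D s.2)) = _
  rw [← tlL_apply, map_smul, map_add, tlL_apply, tlL_apply, tl_one, zero_add]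

/-- relations between the traces -/
theorem tr_rel {A : I → HS L} (hA : ∀ i, P.IsAV (A i)) (φ : I → (L →+* ℂ)) (n : I → ℤ) (w : ℤ)
    (h : ∀ τ : ℂ ≃+* ℂ, ∑ l, n l * rk (A l) (act τ (φ l)) = w) (D : Dv) :
    ∑ l, (n l : ℂ) * (ld0 P (A l) D (φ l)).trace = w * (D tau / tau) := by
  let W : Submodule ℂ (V (Sl I L)) :=
    { carrier := {x | ∀ τ : ℂ ≃+* ℂ, ∑ l, (n l : ℂ) * (x.2 (l, act τ (φ l))).trace = w * x.1}
      zero_mem' := fun τ => by simp
      add_mem' := by
        intro x y hx hy τ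
        rw [Prod.fst_add, mul_add, ← hx τ, ← hy τ, ← Finset.sum_add_distrib]
        refine Finset.sum_congr rfl fun l _ => ?_
        rw [Prod.snd_add, Pi.add_apply, Matrix.trace_add, mul_add]
      smul_mem' := by
        intro a x hx τ
        rw [Prod.smul_fst, smul_eq_mul, mul_left_comm, ← hx τ, Finset.mul_sum]
        refine Finset.sum_congr rfl fun l _ => ?_
        rw [Prod.smul_snd, Pi.smul_apply, Matrix.trace_smul, smul_eq_mul, mul_left_comm] }
  have h1 : IsRational (gS L I) W := by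
    intro σ x hx τ
    have h2 := congrArg σ (hx (τ.trans σ.symm))
    rw [map_sum, map_mul, map_intCast] at h2
    rw [tw_gS]
    change _ = (w : ℂ) * σ x.1
    rw [← h2]
    refine Finset.sum_congr rfl fun l _ => ?_
    rw [map_mul, map_intCast]
    congr 1
    rw [Matrix.trace_fin_two, Matrix.trace_fin_two, map_add]
    rfl
  have h2 : IsLie W := by
    intro x _ y _ τ
    rw [comm_eq]
    change ∑ l, (n l : ℂ) * (brS x.2 y.2 (l, act τ (φ l))).trace = w * 0
    rw [mul_zero]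
    refine Finset.sum_eq_zero fun l _ => ?_
    rw [brS, trace_br, mul_zero]
  have h3 : dmu A ∈ W := by
    intro τ
    have h4 := h τ
    simp only [dmu_trace]
    change _ = (w : ℂ) * 1
    rw [mul_one, ← h4]
    push_cast
    rfl
  have h4 := in_W hA h1 h2 h3 D (RingEquiv.refl ℂ)
  have e1 : ∀ χ : L →+* ℂ, act (RingEquiv.refl ℂ) χ = χ := fun χ => by ext; rfl
  simp only [e1] at h4
  exact h4

/-- relations between the traceless parts -/
theorem tl_twist {A A' : HS L} (hA : P.IsAV A) (hA' : P.IsAV A')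
    (h : ∀ χ, tl (A'.D χ) = tl (A.D χ)) (D : Dv) (χ : L →+* ℂ) :
    tl (ld0 P A' D χ) = tl (ld0 P A D χ) := by
  let W : Submodule ℂ (V (Sl (Fin 2) L)) :=
    { carrier := {x | ∀ χ : L →+* ℂ, tl (x.2 (1, χ)) = tl (x.2 (0, χ))}
      zero_mem' := fun χ => rfl
      add_mem' := by
        intro x y hx hy χ
        have h1 := hx χ
        have h2 := hy χ
        rw [← tlL_apply, ← tlL_apply] at h1 h2 ⊢
        rw [Prod.snd_add, Pi.add_apply, Pi.add_apply, map_add, map_add, h1, h2]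
      smul_mem' := by
        intro a x hx χ
        have h1 := hx χ
        rw [← tlL_apply, ← tlL_apply] at h1 ⊢
        rw [Prod.smul_snd, Pi.smul_apply, Pi.smul_apply, map_smul, map_smul, h1] }
  have h1 : IsRational (gS L (Fin 2)) W := by
    intro σ x hx χ
    rw [tw_gS]
    have h2 := congrArg (fun M : M2 ℂ => M.map σ) (hx (act σ.symm χ))
    have h3 : ∀ M : M2 ℂ, tl (M.map σ) = (tl M).map σ := by
      intro M
      ext p q
      simp only [tl, Matrix.sub_apply, Matrix.smul_apply, Matrix.map_apply, Matrix.trace_fin_two,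
        smul_eq_mul, map_sub, map_mul, map_div₀, map_add]
      congr 2
      · rw [show (2 : ℂ) = ((2 : ℕ) : ℂ) by norm_num, map_natCast]
      · fin_cases p <;> fin_cases q <;> simp
    change tl ((x.2 (1, act σ.symm χ)).map σ) = tl ((x.2 (0, act σ.symm χ)).map σ)
    rw [h3, h3]
    exact h2
  have h2 : IsLie W := by
    intro x hx y hy χ
    rw [comm_eq]
    change tl (br (x.2 (1, χ)) (y.2 (1, χ))) = tl (br (x.2 (0, χ)) (y.2 (0, χ)))
    rw [← br_tl (x.2 (1, χ)), ← br_tl (x.2 (0, χ)), hx χ, hy χ]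
  have h3 : dmu ![A, A'] ∈ W := by
    intro χ
    rw [dmu_tl, dmu_tl]
    congr 1
    exact h χ
  have hAA : ∀ i, P.IsAV (![A, A'] i) := by
    intro i
    fin_cases i
    · exact hA
    · exact hA'
  exact in_W hAA h1 h2 h3 D χ

/-- change of the action of `L` -/
theorem ld_gal {A A' : HS L} (hA : P.IsAV A) (hA' : P.IsAV A') (γ : L ≃ₐ[ℚ] L)
    (h : ∀ χ, A'.D χ = A.D (gc γ χ)) (D : Dv) (χ : L →+* ℂ) :
    ld0 P A' D χ = ld0 P A D (gc γ χ) := by
  let W : Submodule ℂ (V (Sl (Fin 2) L)) :=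
    { carrier := {x | ∀ χ : L →+* ℂ, x.2 (1, χ) = x.2 (0, gc γ χ)}
      zero_mem' := fun χ => rfl
      add_mem' := by
        intro x y hx hy χ
        rw [Prod.snd_add, Pi.add_apply, Pi.add_apply, hx, hy]
      smul_mem' := by
        intro a x hx χ
        rw [Prod.smul_snd, Pi.smul_apply, Pi.smul_apply, hx] }
  have h1 : IsRational (gS L (Fin 2)) W := by
    intro σ x hx χ
    rw [tw_gS]
    change (x.2 (1, act σ.symm χ)).map σ = (x.2 (0, act σ.symm (gc γ χ))).map σ
    rw [hx, gc_act]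
  have h2 : IsLie W := by
    intro x hx y hy χ
    rw [comm_eq]
    change br (x.2 (1, χ)) (y.2 (1, χ)) = br (x.2 (0, gc γ χ)) (y.2 (0, gc γ χ))
    rw [hx, hy]
  have h3 : dmu ![A, A'] ∈ W := by
    intro χ
    change (1 / 2 : ℂ) • (1 + A'.D χ) = (1 / 2 : ℂ) • (1 + A.D (gc γ χ))
    rw [h]
  have hAA : ∀ i, P.IsAV (![A, A'] i) := by
    intro i
    fin_cases i
    · exact hA
    · exact hA'
  exact in_W hAA h1 h2 h3 D χ

/-- the polarizations, and the abelian varieties of CM type -/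
theorem ld_HH [IsGalois ℚ L] {A : I → HS L} {Sp : I → Matrix (Fin 2) (Fin 2) L}
    (hA : ∀ i, P.IsAV (A i)) (hS : ∀ i, IsPol L (A i).D (Sp i)) (D : Dv) :
    HH A Sp 0 (0 : (Fin 0 → Sl I L × Fin 2) → ℂ) (ld P A D) (D tau / tau) := by
  let W : Submodule ℂ (V (Sl I L)) :=
    { carrier := {x | HH A Sp 0 (0 : (Fin 0 → Sl I L × Fin 2) → ℂ) x.2 x.1}
      zero_mem' := HH.zero
      add_mem' := fun hx hy => hx.add hy
      smul_mem' := fun a _ hx => hx.smul a }
  have h1 : IsRational (gS L I) W := by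
    intro σ x hx
    exact HH.gal (fun τ J => by simp) σ hx
  have h2 : IsLie W := by
    intro x hx y hy
    rw [comm_eq]
    exact HH.brk hx hy
  have h3 : dmu A ∈ W := by
    refine ⟨fun J => by simp, fun i φ => ?_, fun i hi φ => ?_⟩
    · have h4 := (hS i).2.1 φ
      change ((1 / 2 : ℂ) • (1 + (A i).D φ))ᵀ * (Sp i).map φ + (Sp i).map φ *
        ((1 / 2 : ℂ) • (1 + (A i).D (ComplexEmbedding.conjugate φ))) = (1 : ℂ) • (Sp i).map φ
      rw [Matrix.transpose_smul, Matrix.transpose_add, Matrix.transpose_one, Matrix.smul_mul,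
        Matrix.mul_smul, Matrix.add_mul, Matrix.mul_add, h4, Matrix.one_mul, Matrix.mul_one,
        ← smul_add, one_smul]
      have e : (Sp i).map φ + -((Sp i).map φ * (A i).D (ComplexEmbedding.conjugate φ)) +
          ((Sp i).map φ + (Sp i).map φ * (A i).D (ComplexEmbedding.conjugate φ)) =
          (2 : ℂ) • (Sp i).map φ := by
        rw [two_smul]
        abel
      rw [e, smul_smul]
      norm_num
    · rw [dmu_tl]
      change (1 / 2 : ℂ) • tl ((A i).D φ) = 0
      rcases hi φ with h | h <;> rw [h]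
      · rw [tl_one, smul_zero]
      · rw [tl_neg_one, smul_zero]
  exact in_W hA h1 h2 h3 D

/-- maps compatible with the logarithmic derivatives are compatible with the de Rham structures -/
theorem per_of_ld {A B : HS L} (hA : P.IsAV A) (hB : P.IsAV B) {N : M2 ℂ} (hN : AlgM N)
    {χ ψ : L →+* ℂ} (h : ∀ D : Dv, ld0 P B D ψ * N = N * ld0 P A D χ) :
    AlgM (P.per B ψ * N * (P.per A χ)⁻¹) := by
  have hu := per_unit hA χ
  obtain ⟨X, hX⟩ : ∃ X, X = P.per B ψ * N * (P.per A χ)⁻¹ := ⟨_, rfl⟩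
  rw [← hX]
  have h1 : X * P.per A χ = P.per B ψ * N := by
    rw [hX, Matrix.mul_assoc, Matrix.nonsing_inv_mul _ hu, Matrix.mul_one]
  intro i j
  refine alg_of_dv fun D => ?_
  have h2 := congrArg (dM D) h1
  rw [dM_mul, dM_mul, dM_alg D hN, Matrix.mul_zero, zero_add, ← per_mul_ld0 hA D χ,
    ← per_mul_ld0 hB D ψ, Matrix.mul_assoc _ _ N, h D, ← Matrix.mul_assoc, ← Matrix.mul_assoc,
    h1, add_eq_left] at h2
  have h4 := congrArg (fun Y => Y * (P.per A χ)⁻¹) h2
  simp only [Matrix.mul_assoc, Matrix.mul_nonsing_inv _ hu, Matrix.mul_one, Matrix.zero_mul] at h4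
  exact congrFun (congrFun h4 i) j

end

end Pool.Agent.W519.E
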