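import Pool.Agent.W519.E.Twi
import Pool.Agent.W519.G.Main

/-!
# Monomials of periods, over one field
-/

set_option autoImplicit false
set_option linter.unusedSectionVars false

namespace Pool.Agent.W519.E

open NumberField Pool.Agent.H204R3.CM Pool.Agent.W547.KB Pool.Agent.W537.PC
open Pool.Agent.W519.Q (act act_apply)
open Pool.Agent.W519.G (cl cl_mul cl_div cl_eq_zero cl_pow cl_zpow cl_prod tp eq_of_smul
  eq_zero_of_smul smul_tp_eq_zero Quo two_pi_ne cl_inv)

noncomputable section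

/-- CM types of `L` -/
abbrev CMT (L : Type) [Field L] : Type := {Φ : Set (L →+* ℂ) // IsCMType Φ}

/-- periods of the abelian varieties with complex multiplication by `L` -/
structure PL (L : Type) [Field L] [NumberField L] [IsCMField L] where
  /-- the periods -/
  per : CMT L → (L →+* ℂ) → ℂ
  ne : ∀ B φ, per B φ ≠ 0
  rel : ∀ (k : ℕ) (B : Fin (2 * k) → CMT L) (φ : ∀ l : Fin (2 * k), L →+* ℂ),
    (∀ τ : ℂ ≃+* ℂ, Nat.card {l // (τ : ℂ →+* ℂ).comp (φ l) ∈ (B l).1} = k) →
      IsAlgebraic ℚ ((∏ l, per (B l) (φ l)) / (2 * Real.pi * Complex.I) ^ k)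

variable {L : Type} [Field L] [NumberField L] [IsCMField L]

/-- the conjugate embedding -/
def cj {E : Type} [Field E] (φ : E →+* ℂ) : E →+* ℂ := ComplexEmbedding.conjugate φ

/-- one if `τ φ` belongs to the CM type, zero otherwise -/
def ind (B : CMT L) (τ : ℂ ≃+* ℂ) (φ : L →+* ℂ) : ℤ := by
  classical
  exact if (τ : ℂ →+* ℂ).comp φ ∈ B.1 then 1 else 0

lemma comp_cj (τ : ℂ ≃+* ℂ) (φ : L →+* ℂ) :
    (τ : ℂ →+* ℂ).comp (cj φ) = cj ((τ : ℂ →+* ℂ).comp φ) := by
  ext x
  have h1 : ∀ ψ : L →+* ℂ, cj ψ x = ψ (IsCMField.complexConj L x) := by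
    intro ψ
    rw [IsCMField.complexEmbedding_complexConj]
    rfl
  rw [RingHom.comp_apply, h1, h1]
  rfl

lemma ind_cj (B : CMT L) (τ : ℂ ≃+* ℂ) (φ : L →+* ℂ) : ind B τ (cj φ) = 1 - ind B τ φ := by
  classical
  unfold ind
  rw [comp_cj]
  have h := B.2 ((τ : ℂ →+* ℂ).comp φ)
  by_cases h1 : (τ : ℂ →+* ℂ).comp φ ∈ B.1
  · have h2 : cj ((τ : ℂ →+* ℂ).comp φ) ∉ B.1 := h.1 h1
    rw [if_neg h2, if_pos h1]
    norm_num
  · have h2 : cj ((τ : ℂ →+* ℂ).comp φ) ∈ B.1 := by
      by_contra h3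
      exact h1 (h.2 h3)
    rw [if_pos h2, if_neg h1]
    norm_num

variable (P : PL L)

/-- the class of a period -/
def PL.c (B : CMT L) (φ : L →+* ℂ) : Quo := cl (P.per B φ)

/-- the property of the period system for families indexed by any finite type -/
lemma rel_card {ι : Type} [Fintype ι] (k : ℕ) (hk : Fintype.card ι = 2 * k) (B : ι → CMT L)
    (φ : ∀ l, L →+* ℂ) (h : ∀ τ : ℂ ≃+* ℂ, ∑ l, ind (B l) τ (φ l) = k) :
    ∑ l, P.c (B l) (φ l) = (k : ℤ) • tp := by
  classical
  let e : Fin (2 * k) ≃ ι := (Fintype.equivFinOfCardEq hk).symm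
  have h1 := P.rel k (fun l => B (e l)) (fun l => φ (e l)) (by
    intro τ
    have h2 := h τ
    rw [← Equiv.sum_comp e] at h2
    unfold ind at h2
    rw [Finset.sum_boole] at h2
    rw [Nat.card_eq_fintype_card, Fintype.card_subtype]
    exact_mod_cast h2)
  have hne : (∏ l, P.per (B (e l)) (φ (e l))) ≠ 0 :=
    Finset.prod_ne_zero_iff.2 fun l _ => P.ne _ _
  rw [← cl_eq_zero (div_ne_zero hne (pow_ne_zero _ two_pi_ne)),
    cl_div hne (pow_ne_zero _ two_pi_ne), cl_pow two_pi_ne, sub_eq_zero,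
    cl_prod _ _ (fun l _ => P.ne _ _)] at h1
  rw [natCast_zsmul, tp, ← h1]
  exact (Equiv.sum_comp e (fun l => P.c (B l) (φ l))).symm

lemma c_cj (B : CMT L) (φ : L →+* ℂ) : P.c B (cj φ) = tp - P.c B φ := by
  have h := rel_card P (ι := Fin 2) 1 (by simp) (fun _ => B) ![φ, cj φ] (by
    intro τ
    rw [Fin.sum_univ_two]
    change ind B τ φ + ind B τ (cj φ) = _
    rw [ind_cj]
    push_cast
    ring)
  rw [Fin.sum_univ_two] at h
  change P.c B φ + P.c B (cj φ) = _ at h
  rw [Nat.cast_one, one_smul] at h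
  rw [← h]
  abel

lemma ind_star (B : CMT L) (τ : ℂ ≃+* ℂ) (φ : L →+* ℂ) :
    ind B (τ.trans starRingAut) φ = 1 - ind B τ φ := by
  classical
  rw [← ind_cj]
  unfold ind
  rw [comp_cj]
  rfl

/-- the relations with integral exponents -/
theorem rel_int {ι : Type} [Fintype ι] (B : ι → CMT L) (φ : ∀ l, L →+* ℂ) (n : ι → ℤ)
    (w : ℤ) (h : ∀ τ : ℂ ≃+* ℂ, ∑ l, n l * ind (B l) τ (φ l) = w) :
    ∑ l, n l • P.c (B l) (φ l) = w • tp := by
  classical
  -- the sum of the exponents
  have hsum : ∑ l, n l = 2 * w := by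
    have h1 := h (RingEquiv.refl ℂ)
    have h2 := h ((RingEquiv.refl ℂ).trans starRingAut)
    simp only [ind_star, mul_sub, mul_one, Finset.sum_sub_distrib] at h2
    rw [h1] at h2
    linarith
  let m : ℤ := ∑ l, if n l < 0 then - n l else 0
  have hm : 0 ≤ m := Finset.sum_nonneg fun l _ => by
    by_cases h1 : n l < 0
    · rw [if_pos h1]
      omega
    · rw [if_neg h1]
  have habs : ∑ l, ((n l).natAbs : ℤ) = 2 * (w + m) := by
    have h1 : ∀ l, ((n l).natAbs : ℤ) = n l + 2 * (if n l < 0 then - n l else 0) := by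
      intro l
      by_cases h1 : n l < 0
      · rw [if_pos h1]
        omega
      · rw [if_neg h1]
        omega
    rw [Finset.sum_congr rfl (fun l _ => h1 l), Finset.sum_add_distrib, ← Finset.mul_sum, hsum]
    ring
  have hwm : 0 ≤ w + m := by
    have h1 : (0 : ℤ) ≤ ∑ l, ((n l).natAbs : ℤ) := Finset.sum_nonneg fun l _ => by positivity
    omega
  let φ' : ∀ l, L →+* ℂ := fun l => if n l < 0 then cj (φ l) else φ l
  have h2 := rel_card P (ι := Σ l, Fin (n l).natAbs) (w + m).toNat (by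
    rw [Fintype.card_sigma]
    simp only [Fintype.card_fin]
    have : ((∑ l, (n l).natAbs : ℕ) : ℤ) = ((2 * (w + m).toNat : ℕ) : ℤ) := by
      push_cast
      rw [Int.toNat_of_nonneg hwm]
      push_cast at habs
      exact habs
    exact_mod_cast this) (fun x => B x.1) (fun x => φ' x.1) (by
    intro τ
    rw [Fintype.sum_sigma, Int.toNat_of_nonneg hwm]
    simp only [Finset.sum_const, Finset.card_univ, Fintype.card_fin, nsmul_eq_mul]
    have h3 : ∀ l, ((n l).natAbs : ℤ) * ind (B l) τ (φ' l) =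
        n l * ind (B l) τ (φ l) + (if n l < 0 then - n l else 0) := by
      intro l
      by_cases h1 : n l < 0
      · simp only [φ', if_pos h1]
        rw [ind_cj]
        have : ((n l).natAbs : ℤ) = - n l := by omega
        rw [this]
        ring
      · simp only [φ', if_neg h1]
        have : ((n l).natAbs : ℤ) = n l := by omega
        rw [this]
        ring
    rw [Finset.sum_congr rfl (fun l _ => h3 l), Finset.sum_add_distrib, h τ])
  rw [Fintype.sum_sigma, Int.toNat_of_nonneg hwm] at h2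
  simp only [Finset.sum_const, Finset.card_univ, Fintype.card_fin] at h2
  have h3 : ∀ l, (n l).natAbs • P.c (B l) (φ' l) =
      n l • P.c (B l) (φ l) + (if n l < 0 then - n l else 0) • tp := by
    intro l
    rw [← natCast_zsmul]
    by_cases h1 : n l < 0
    · simp only [φ', if_pos h1]
      rw [c_cj]
      have : ((n l).natAbs : ℤ) = - n l := by omega
      rw [this, smul_sub, neg_smul, neg_smul]
      abel
    · simp only [φ', if_neg h1]
      have : ((n l).natAbs : ℤ) = n l := by omega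
      rw [this, zero_smul, add_zero]
  rw [Finset.sum_congr rfl (fun l _ => h3 l), Finset.sum_add_distrib, ← Finset.sum_smul,
    add_smul] at h2
  exact add_right_cancel h2


section gal

variable [IsGalois ℚ L] (j : L →+* ℂ)

/-- one if `j σ φ` belongs to the CM type, zero otherwise -/
def indL (B : CMT L) (σ : L ≃ₐ[ℚ] L) (φ : L →+* L) : ℤ := by
  classical
  exact if j.comp ((σ : L →+* L).comp φ) ∈ B.1 then 1 else 0

variable {j}

lemma indL_pos {B : CMT L} {σ : L ≃ₐ[ℚ] L} {φ : L →+* L}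
    (h : j.comp ((σ : L →+* L).comp φ) ∈ B.1) : indL j B σ φ = 1 := by
  unfold indL
  rw [if_pos h]

lemma indL_neg {B : CMT L} {σ : L ≃ₐ[ℚ] L} {φ : L →+* L}
    (h : j.comp ((σ : L →+* L).comp φ) ∉ B.1) : indL j B σ φ = 0 := by
  unfold indL
  rw [if_neg h]

lemma ind_eq {B : CMT L} {τ : ℂ ≃+* ℂ} {σ : L ≃ₐ[ℚ] L} (h : ∀ x, τ (j x) = j (σ x))
    (φ : L →+* L) : ind B τ (j.comp φ) = indL j B σ φ := by
  unfold ind indL
  have : (τ : ℂ →+* ℂ).comp (j.comp φ) = j.comp ((σ : L →+* L).comp φ) := by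
    ext x
    exact h _
  rw [this]

lemma indL_cc (B : CMT L) (σ : L ≃ₐ[ℚ] L) (φ : L →+* L) :
    indL j B (cc L * σ) φ = 1 - indL j B σ φ := by
  have h1 : j.comp (((cc L * σ : L ≃ₐ[ℚ] L) : L →+* L).comp φ) =
      ComplexEmbedding.conjugate (j.comp ((σ : L →+* L).comp φ)) := by
    ext y
    change j (cc L (σ (φ y))) = _
    rw [emb_cc, ComplexEmbedding.conjugate_coe_eq]
    rfl
  unfold indL
  rw [h1]
  have h := B.2 (j.comp ((σ : L →+* L).comp φ))
  by_cases h2 : j.comp ((σ : L →+* L).comp φ) ∈ B.1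
  · rw [if_neg (h.1 h2), if_pos h2]
    norm_num
  · have h3 : ComplexEmbedding.conjugate (j.comp ((σ : L →+* L).comp φ)) ∈ B.1 := by
      by_contra h3
      exact h2 (h.2 h3)
    rw [if_pos h3, if_neg h2]
    norm_num

lemma indL_cases (B : CMT L) (σ : L ≃ₐ[ℚ] L) (φ : L →+* L) :
    indL j B σ φ = 0 ∨ indL j B σ φ = 1 := by
  unfold indL
  by_cases h2 : j.comp ((σ : L →+* L).comp φ) ∈ B.1
  · rw [if_pos h2]
    exact Or.inr rfl
  · rw [if_neg h2]
    exact Or.inl rfl

variable (P : PL L)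

/-- the class of a period, with an embedding into `L` -/
def PL.cL (P : PL L) (j : L →+* ℂ) (B : CMT L) (σ : L ≃ₐ[ℚ] L) (φ : L →+* L) : Quo :=
  P.c B (j.comp ((σ : L →+* L).comp φ))

lemma c_eq {B : CMT L} {τ : ℂ ≃+* ℂ} {σ : L ≃ₐ[ℚ] L} (h : ∀ x, τ (j x) = j (σ x))
    (φ : L →+* L) : P.c B ((τ : ℂ →+* ℂ).comp (j.comp φ)) = P.cL j B σ φ := by
  unfold PL.cL
  have : (τ : ℂ →+* ℂ).comp (j.comp φ) = j.comp ((σ : L →+* L).comp φ) := by
    ext x
    exact h _
  rw [this]

/-- the relations, with embeddings into `L` -/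
lemma relL {ι : Type} [Fintype ι] (B : ι → CMT L) (σ : ι → (L ≃ₐ[ℚ] L))
    (φ : ∀ l, L →+* L) (n : ι → ℤ) (w : ℤ)
    (h : ∀ g : L ≃ₐ[ℚ] L, ∑ l, n l * indL j (B l) (g * σ l) (φ l) = w) :
    ∑ l, n l • P.cL j (B l) (σ l) (φ l) = w • tp := by
  refine rel_int P B (fun l => j.comp ((σ l : L →+* L).comp (φ l))) n w fun τ => ?_
  obtain ⟨g, hg⟩ := Pool.Agent.H977R3.CM.exists_gal j τ
  rw [← h g]
  refine Finset.sum_congr rfl fun l _ => ?_
  rw [ind_eq hg]
  rfl

lemma cL_cc (B : CMT L) (σ : L ≃ₐ[ℚ] L) (φ : L →+* L) :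
    P.cL j B (cc L * σ) φ = tp - P.cL j B σ φ := by
  unfold PL.cL
  rw [← c_cj]
  congr 1
  ext y
  change j (cc L (σ (φ y))) = _
  rw [emb_cc]
  rfl

/-- the CM types of the field `L` are determined by the periods up to algebraic factors -/
def DetL (P : PL L) : Prop :=
  ∀ Φ Ψ : CMT L, (∀ φ : L →+* ℂ, IsAlgebraic ℚ (P.per Φ φ / P.per Ψ φ)) → Φ = Ψ

/-- the main argument, over a common field -/
theorem main_field' (det : DetL P) (hL : IsAbelian L) {ι : Type} [Fintype ι] [Nonempty ι]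
    (B : ι → CMT L) (φ : ∀ l, L →+* L) (n : ι → ℤ) (w : ℤ)
    (h : ∀ g : L ≃ₐ[ℚ] L, ∑ l, n l • P.cL j (B l) g (φ l) = w • tp) (g0 : L ≃ₐ[ℚ] L) :
    ∑ l, n l * indL j (B l) g0 (φ l) = w := by
  classical
  set H : (L ≃ₐ[ℚ] L) → ℤ := fun g => ∑ l, n l * indL j (B l) g (φ l) with hH
  set N0 : ℤ := ∑ l, n l with hN0
  have hHcc : ∀ g, H (cc L * g) = N0 - H g := by
    intro g
    simp only [hH, indL_cc, mul_sub, mul_one, Finset.sum_sub_distrib, hN0]
  have hcomm : ∀ a b : L ≃ₐ[ℚ] L, a * b = b * a := hL.2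
  have key : ∀ g, 2 * H g = N0 := by
    by_contra hcon
    push Not at hcon
    obtain ⟨g1, hg1⟩ := hcon
    set Bf : (L ≃ₐ[ℚ] L) → ℤ := fun g => 2 * H g - N0 with hBf
    have hodd : ∀ g, Bf (cc L * g) = - Bf g := by
      intro g
      simp only [hBf, hHcc]
      ring
    have hB0 : Bf ≠ 0 := fun h0 => hg1 (by
      have := congrFun h0 g1
      simp only [hBf, Pi.zero_apply] at this
      linarith)
    obtain ⟨m, N, u, hN, hu0, hval, hodd', hrel⟩ := exists_small' hcomm (cc L) Bf hodd hB0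
    obtain ⟨l0⟩ := ‹Nonempty ι›
    let S : Set (L ≃ₐ[ℚ] L) := {σ | u σ = 1 ∨ (u σ = 0 ∧ indL j (B l0) σ (φ l0) = 1)}
    let S' : Set (L ≃ₐ[ℚ] L) := {σ | u σ = -1 ∨ (u σ = 0 ∧ indL j (B l0) σ (φ l0) = 1)}
    have hS : IsHalf S := by
      intro σ
      change (u σ = 1 ∨ (u σ = 0 ∧ indL j (B l0) σ (φ l0) = 1)) ↔
        ¬ (u (cc L * σ) = 1 ∨ (u (cc L * σ) = 0 ∧ indL j (B l0) (cc L * σ) (φ l0) = 1))
      rw [hodd', indL_cc]
      have h1 := hval σ
      have h2 := indL_cases (j := j) (B l0) σ (φ l0)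
      omega
    have hS' : IsHalf S' := by
      intro σ
      change (u σ = -1 ∨ (u σ = 0 ∧ indL j (B l0) σ (φ l0) = 1)) ↔
        ¬ (u (cc L * σ) = -1 ∨ (u (cc L * σ) = 0 ∧ indL j (B l0) (cc L * σ) (φ l0) = 1))
      rw [hodd', indL_cc]
      have h1 := hval σ
      have h2 := indL_cases (j := j) (B l0) σ (φ l0)
      omega
    let B1 : CMT L := ⟨typeOf j S, isCMType_typeOf j hS⟩
    let B2 : CMT L := ⟨typeOf j S', isCMType_typeOf j hS'⟩
    have hdiff : ∀ σ, indL j B1 σ (RingHom.id L) - indL j B2 σ (RingHom.id L) = u σ := by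
      intro σ
      have e1 : indL j B1 σ (RingHom.id L) = if σ ∈ S then 1 else 0 := by
        have : j.comp ((σ : L →+* L).comp (RingHom.id L)) ∈ B1.1 ↔ σ ∈ S := mem_typeOf j S σ
        by_cases hs : σ ∈ S
        · rw [if_pos hs, indL_pos (this.2 hs)]
        · rw [if_neg hs, indL_neg fun h => hs (this.1 h)]
      have e2 : indL j B2 σ (RingHom.id L) = if σ ∈ S' then 1 else 0 := by
        have : j.comp ((σ : L →+* L).comp (RingHom.id L)) ∈ B2.1 ↔ σ ∈ S' := mem_typeOf j S' σ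
        by_cases hs : σ ∈ S'
        · rw [if_pos hs, indL_pos (this.2 hs)]
        · rw [if_neg hs, indL_neg fun h => hs (this.1 h)]
      rw [e1, e2]
      have h1 := hval σ
      have h2 := indL_cases (j := j) (B l0) σ (φ l0)
      have hs : σ ∈ S ↔ (u σ = 1 ∨ (u σ = 0 ∧ indL j (B l0) σ (φ l0) = 1)) := Iff.rfl
      have hs' : σ ∈ S' ↔ (u σ = -1 ∨ (u σ = 0 ∧ indL j (B l0) σ (φ l0) = 1)) := Iff.rfl
      by_cases a1 : σ ∈ S <;> by_cases a2 : σ ∈ S' <;> simp only [a1, a2, if_true, if_false] <;>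
        rw [hs] at a1 <;> rw [hs'] at a2 <;> omega
    -- the relation between the periods of the two types
    set M : ℤ := ∑ s, m s with hM
    have hD : ∀ g : L ≃ₐ[ℚ] L,
        (N : ℤ) • (P.cL j B1 g (RingHom.id L) - P.cL j B2 g (RingHom.id L)) =
          (2 * w * M - N0 * M) • tp := by
      intro g
      let ι' : Type := Fin 2 ⊕ ((L ≃ₐ[ℚ] L) × ι)
      let B' : ι' → CMT L := Sum.elim ![B1, B2] (fun x => B x.2)
      let σ' : ι' → (L ≃ₐ[ℚ] L) := Sum.elim (fun _ => g) (fun x => x.1 * g)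
      let φ' : ι' → (L →+* L) := Sum.elim (fun _ => RingHom.id L) (fun x => φ x.2)
      let n' : ι' → ℤ := Sum.elim ![(N : ℤ), -(N : ℤ)] (fun x => - (2 * m x.1 * n x.2))
      have h1 := relL (j := j) P B' σ' φ' n' (- (N0 * M)) (by
        intro a
        rw [Fintype.sum_sum_type, Fin.sum_univ_two, Fintype.sum_prod_type]
        change (N : ℤ) * indL j B1 (a * g) (RingHom.id L) +
          (-(N : ℤ)) * indL j B2 (a * g) (RingHom.id L) +
          ∑ s : L ≃ₐ[ℚ] L, ∑ l, (-(2 * m s * n l)) * indL j (B l) (a * (s * g)) (φ l) = _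
        have h2 : ∀ s : L ≃ₐ[ℚ] L,
            ∑ l, (-(2 * m s * n l)) * indL j (B l) (a * (s * g)) (φ l) =
              - (m s * Bf (s * (a * g))) - m s * N0 := by
          intro s
          have h3 : a * (s * g) = s * (a * g) := by
            rw [← mul_assoc, hcomm a s, mul_assoc]
          rw [h3]
          have h4 : ∑ l, (-(2 * m s * n l)) * indL j (B l) (s * (a * g)) (φ l) =
              - (2 * m s) * H (s * (a * g)) := by
            simp only [hH]
            rw [Finset.mul_sum]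
            exact Finset.sum_congr rfl fun l _ => by ring
          rw [h4]
          simp only [hBf]
          ring
        rw [Finset.sum_congr rfl (fun s _ => h2 s), Finset.sum_sub_distrib, Finset.sum_neg_distrib,
          hrel, ← Finset.sum_mul, ← hM, ← hdiff (a * g)]
        ring)
      rw [Fintype.sum_sum_type, Fin.sum_univ_two, Fintype.sum_prod_type] at h1
      change (N : ℤ) • P.cL j B1 g (RingHom.id L) +
        (-(N : ℤ)) • P.cL j B2 g (RingHom.id L) +
        ∑ s : L ≃ₐ[ℚ] L, ∑ l, (-(2 * m s * n l)) • P.cL j (B l) (s * g) (φ l) = _ at h1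
      have h5 : ∀ s : L ≃ₐ[ℚ] L, ∑ l, (-(2 * m s * n l)) • P.cL j (B l) (s * g) (φ l) =
          (-(2 * m s * w)) • tp := by
        intro s
        have h6 := congrArg (fun q => (-(2 * m s)) • q) (h (s * g))
        simp only [Finset.smul_sum, smul_smul] at h6
        rw [show -(2 * m s * w) = -(2 * m s) * w by ring, ← h6]
        exact Finset.sum_congr rfl fun l _ => by rw [show -(2 * m s * n l) = -(2 * m s) * n l by ring]
      rw [Finset.sum_congr rfl (fun s _ => h5 s), ← Finset.sum_smul] at h1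
      have h7 : ∑ s, (-(2 * m s * w)) = - (2 * w * M) := by
        rw [hM, Finset.mul_sum, ← Finset.sum_neg_distrib]
        exact Finset.sum_congr rfl fun s _ => by ring
      rw [h7] at h1
      rw [smul_sub, show (2 * w * M - N0 * M) = -(N0 * M) - (-(2 * w * M)) by ring, sub_smul, ← h1,
        neg_smul]
      abel
    have hr : (2 * w * M - N0 * M) = 0 := by
      have e1 := hD 1
      have e2 := hD (cc L * 1)
      rw [cL_cc, cL_cc] at e2
      have e3 : ((2 * w * M - N0 * M) + (2 * w * M - N0 * M)) • tp = 0 := by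
        rw [add_smul]
        nth_rewrite 1 [← e1]
        rw [← e2, ← smul_add]
        have : P.cL j B1 1 (RingHom.id L) - P.cL j B2 1 (RingHom.id L) +
          (tp - P.cL j B1 1 (RingHom.id L) - (tp - P.cL j B2 1 (RingHom.id L))) = 0 := by abel
        rw [this, smul_zero]
      have := smul_tp_eq_zero e3
      linarith
    have hc : ∀ g : L ≃ₐ[ℚ] L, P.cL j B1 g (RingHom.id L) = P.cL j B2 g (RingHom.id L) := by
      intro g
      have h1 := hD g
      rw [hr, zero_smul] at h1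
      exact sub_eq_zero.1 (eq_zero_of_smul (by exact_mod_cast hN.ne') h1)
    have hΨ : typeOf j S = typeOf j S' := by
      refine congrArg Subtype.val (det B1 B2 fun ψ => ?_)
      obtain ⟨g, rfl⟩ := comp_surjective j ψ
      have hp1 := P.ne B1 (j.comp (g : L →+* L))
      have hp2 := P.ne B2 (j.comp (g : L →+* L))
      rw [← cl_eq_zero (div_ne_zero hp1 hp2), cl_div hp1 hp2, sub_eq_zero]
      exact hc g
    have hSS : ∀ σ, σ ∈ S ↔ σ ∈ S' := by
      intro σ
      rw [← mem_typeOf j S σ, ← mem_typeOf j S' σ, hΨ]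
    apply hu0
    funext σ
    have h1 := hSS σ
    have h2 := hval σ
    change (u σ = 1 ∨ (u σ = 0 ∧ indL j (B l0) σ (φ l0) = 1)) ↔
      (u σ = -1 ∨ (u σ = 0 ∧ indL j (B l0) σ (φ l0) = 1)) at h1
    change u σ = 0
    omega
  -- conclusion
  have h1 := relL (j := j) P B (fun _ => 1) φ n (H g0) (by
    intro g
    have e1 := key g
    have e2 := key g0
    simp only [mul_one]
    change H g = H g0
    linarith)
  rw [h 1] at h1
  have h2 : (w - H g0) • tp = 0 := by rw [sub_smul, h1, sub_self]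
  have h3 := smul_tp_eq_zero h2
  change H g0 = w
  linarith



/-- the main argument, for CM types of `L` -/
theorem main_act (det : DetL P) (hL : IsAbelian L) {ι : Type} [Fintype ι]
    (B : ι → CMT L) (φ : ι → (L →+* ℂ)) (n : ι → ℤ) (w : ℤ)
    (h : ∀ τ : ℂ ≃+* ℂ, ∑ l, n l • P.c (B l) (act τ (φ l)) = w • tp) (τ : ℂ ≃+* ℂ) :
    ∑ l, n l * ind (B l) τ (φ l) = w := by
  classical
  rcases isEmpty_or_nonempty ι with hι | hι
  · have h1 := h τ
    rw [Finset.univ_eq_empty, Finset.sum_empty] at h1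
    rw [Finset.univ_eq_empty, Finset.sum_empty]
    exact (smul_tp_eq_zero h1.symm).symm
  · obtain ⟨l0⟩ := hι
    have : Nonempty ι := ⟨l0⟩
    set j : L →+* ℂ := φ l0
    choose σ hσ using fun l => comp_surjective j (φ l)
    obtain ⟨g0, hg0⟩ := Pool.Agent.H977R3.CM.exists_gal j τ
    have h1 := main_field' (j := j) P det hL B
      (fun l => ((σ l : L ≃ₐ[ℚ] L) : L →+* L)) n w (by
      intro g
      obtain ⟨τ', hτ'⟩ := Pool.Agent.H977R3.CM.exists_aut j (g : L ≃+* L)
      rw [← h τ']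
      refine Finset.sum_congr rfl fun l _ => ?_
      congr 1
      unfold PL.cL
      congr 1
      ext x
      have h2 : φ l x = j (σ l x) := (RingHom.congr_fun (hσ l) x).symm
      rw [act_apply, h2, hτ']
      rfl) g0
    rw [← h1]
    refine Finset.sum_congr rfl fun l _ => ?_
    congr 1
    rw [← ind_eq (B := B l) hg0]
    congr 1
    exact (hσ l).symm

end gal

end

end Pool.Agent.W519.E
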