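import Pool.Agent.W519.E.PerL

/-!
# The periods of the abelian varieties of CM type
-/

set_option autoImplicit false
set_option linter.unusedSectionVars false
set_option linter.unusedVariables false

namespace Pool.Agent.W519.E

open NumberField Pool.Agent.H204R3.CM Pool.Agent.W547.KB Pool.Agent.W537.PC Matrix
open Pool.Agent.W519.Q hiding Kb sL mem_sL NoEig subdirect PeriodSystem Semisimple SemisimpleAt
  HomHodge IC inter_ic pm ld pm_mul_ld ld_inj ld_pol ld_sq EV COM ev_of EndHodge no_split noEig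
  comm_all cl_det cl_twist main_act main_field' DetL detL
open Pool.Agent.W519.G (cl cl_mul cl_div cl_eq_zero cl_pow cl_zpow cl_prod tp eq_of_smul
  eq_zero_of_smul smul_tp_eq_zero Quo two_pi_ne cl_inv)

noncomputable section

variable {L : Type} [Field L] [NumberField L] [IsCMField L] [IsGalois ℚ L]
variable {P : PerSys L}

/-- the trace of the logarithmic derivative is the logarithmic derivative of the determinant -/
lemma lg_det0 {B : HS L} (hB : P.IsAV B) (D : Dv) (χ : L →+* ℂ) :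
    lg D (P.per B χ).det = (ld0 P B D χ).trace := by
  have hd : (P.per B χ).det ≠ 0 := P.det_ne _ hB χ
  have h1 := per_mul_ld0 hB D χ
  rw [lg, div_eq_iff hd, Matrix.det_fin_two, map_sub, dv_mul, dv_mul]
  have e : ∀ i j, D (P.per B χ i j) = (P.per B χ * ld0 P B D χ) i j := by
    intro i j
    rw [h1]
    rfl
  rw [e, e, e, e]
  simp only [Matrix.mul_apply, Fin.sum_univ_two, Matrix.trace_fin_two]
  ring

/-- the logarithmic derivatives of abelian varieties of CM type -/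
lemma ld0_sq {B : HS L} (hB : P.IsAV B) (hsq : B.IsSquare) (D : Dv) (χ : L →+* ℂ) :
    ld0 P B D χ = ((ld0 P B D χ).trace / 2) • (1 : M2 ℂ) := by
  obtain ⟨S, hS⟩ := B.pol
  have h1 := (ld_HH (P := P) (A := fun _ : Fin 1 => B) (Sp := fun _ => S) (fun _ => hB)
    (fun _ => hS) D).sq 0 hsq χ
  change tl (ld0 P B D χ) = 0 at h1
  conv_lhs => rw [add_tl (ld0 P B D χ), h1, zero_add]

/-- the period of an abelian variety of CM type -/
theorem exists_cmper {B : HS L} (hB : P.IsAV B) (hsq : B.IsSquare) (χ : L →+* ℂ) :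
    ∃ c : ℂ, c ≠ 0 ∧ ∀ D : Dv, lg D c = (ld0 P B D χ).trace / 2 := by
  set M := P.per B χ with hM
  have hM0 : (fun x : Fin 2 × Fin 2 => M x.1 x.2) ≠ 0 := by
    intro h0
    apply P.det_ne B hB χ
    have : M = 0 := by
      ext i j
      exact congrFun h0 (i, j)
    rw [← hM, this, Matrix.det_fin_two]
    simp
  have hder : ∀ D : Dv, ∀ x : Fin 2 × Fin 2, D (M x.1 x.2) =
      ((ld0 P B D χ).trace / 2) * M x.1 x.2 := by
    intro D x
    have h1 := per_mul_ld0 hB D χ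
    rw [ld0_sq hB hsq, Matrix.mul_smul, Matrix.mul_one] at h1
    exact (congrFun (congrFun h1 x.1) x.2).symm
  obtain ⟨c, u, hc, hu, hcu⟩ := prop_alg _ hM0 (fun D => ⟨_, hder D⟩)
  refine ⟨c, hc, fun D => ?_⟩
  obtain ⟨x, hx⟩ := Function.ne_iff.1 hM0
  have hx' : M x.1 x.2 ≠ 0 := hx
  have h1 : M x.1 x.2 = c * u x := congrFun hcu x
  have hux : u x ≠ 0 := by
    intro h0
    rw [h1, h0, mul_zero] at hx'
    exact hx' rfl
  have h2 := hder D x
  rw [h1, dv_mul, dv_alg D (hu x), mul_zero, zero_add, ← mul_assoc] at h2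
  rw [lg, div_eq_iff hc]
  exact mul_right_cancel₀ hux h2

variable (P)

/-- the abelian variety of a CM type -/
def cmB (B : CMT L) : HS L := cmsq B.1 B.2

lemma cmB_av (B : CMT L) : P.IsAV (cmB B) := P.cm_av _ (cmsq_isSquare B.1 B.2)

/-- the period -/
def cp (B : CMT L) (χ : L →+* ℂ) : ℂ :=
  (exists_cmper (cmB_av P B) (cmsq_isSquare B.1 B.2) χ).choose

lemma cp_ne (B : CMT L) (χ : L →+* ℂ) : cp P B χ ≠ 0 :=
  (exists_cmper (cmB_av P B) (cmsq_isSquare B.1 B.2) χ).choose_spec.1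

lemma cp_lg (B : CMT L) (χ : L →+* ℂ) (D : Dv) :
    lg D (cp P B χ) = (ld0 P (cmB B) D χ).trace / 2 :=
  (exists_cmper (cmB_av P B) (cmsq_isSquare B.1 B.2) χ).choose_spec.2 D

lemma rk_cmB (B : CMT L) (τ : ℂ ≃+* ℂ) (χ : L →+* ℂ) : rk (cmB B) (act τ χ) = 2 * ind B τ χ := by
  classical
  have h := cmsq_D B.1 B.2 (act τ χ)
  unfold ind
  by_cases h1 : (τ : ℂ →+* ℂ).comp χ ∈ B.1
  · rw [if_pos h1, mul_one]
    exact rk_one (h.1 h1)
  · rw [if_neg h1, mul_zero]
    exact rk_neg (h.2 h1)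

/-- the periods of the abelian varieties of CM type -/
def pl : PL L where
  per := cp P
  ne := cp_ne P
  rel := by
    classical
    intro k B φ h
    have hne : ∀ l, cp P (B l) (φ l) ≠ 0 := fun l => cp_ne P _ _
    have htau : (2 * Real.pi * Complex.I : ℂ) = tau := rfl
    have h1 : ∀ D : Dv, lg D (∏ l, cp P (B l) (φ l)) = lg D (tau ^ (k : ℤ)) := by
      intro D
      rw [lg_prod D _ _ hne, lg_zpow D tau_ne]
      have h2 := tr_rel (P := P) (A := fun l => cmB (B l)) (fun l => cmB_av P _) φ (fun _ => 1)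
        (2 * (k : ℤ)) (fun τ => by
          simp only [rk_cmB, one_mul]
          rw [← Finset.mul_sum]
          congr 1
          have h5 := h τ
          rw [Nat.card_eq_fintype_card, Fintype.card_subtype, Finset.card_filter] at h5
          have h6 := congrArg (fun x : ℕ => (x : ℤ)) h5
          push_cast at h6
          exact h6) D
      simp only [cp_lg]
      rw [← Finset.sum_div]
      simp only [Int.cast_one, one_mul] at h2
      rw [h2, lg]
      push_cast
      ring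
    have h3 := cl_eq_of_lg (Finset.prod_ne_zero_iff.2 fun l _ => hne l) (zpow_ne_zero _ tau_ne) h1
    rw [htau, ← cl_eq_zero (div_ne_zero (Finset.prod_ne_zero_iff.2 fun l _ => hne l)
      (pow_ne_zero _ tau_ne)), cl_div (Finset.prod_ne_zero_iff.2 fun l _ => hne l)
      (pow_ne_zero _ tau_ne), h3, zpow_natCast, sub_self]

lemma pl_c (B : CMT L) (χ : L →+* ℂ) : (pl P).c B χ = cl (cp P B χ) := rfl

variable {P}

/-- the class of the determinant -/
theorem cl_det {A : HS L} (hA : P.IsAV A) (χ : L →+* ℂ) :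
    cl (P.per A χ).det = (pl P).c ⟨Ph1 A, ph1 A⟩ χ + (pl P).c ⟨Ph2 A, ph2 A⟩ χ := by
  rw [pl_c, pl_c, ← cl_mul (cp_ne P _ _) (cp_ne P _ _)]
  refine cl_eq_of_lg (P.det_ne A hA χ) (mul_ne_zero (cp_ne P _ _) (cp_ne P _ _)) fun D => ?_
  rw [lg_mul D (cp_ne P _ _) (cp_ne P _ _), lg_det0 hA, cp_lg, cp_lg]
  have h := tr_rel (P := P) (A := ![A, cmB ⟨Ph1 A, ph1 A⟩, cmB ⟨Ph2 A, ph2 A⟩]) (fun k => by
      fin_cases k
      · exact hA
      · exact cmB_av P _
      · exact cmB_av P _) ![χ, χ, χ] ![2, -1, -1] 0 (fun τ => by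
    rw [Fin.sum_univ_three]
    change 2 * rk A (act τ χ) + (-1) * rk (cmB ⟨Ph1 A, ph1 A⟩) (act τ χ) +
      (-1) * rk (cmB ⟨Ph2 A, ph2 A⟩) (act τ χ) = 0
    rw [rk_cmB, rk_cmB]
    have h1 := ind_sum A τ χ
    have e1 : ind (⟨Ph1 A, ph1 A⟩ : CMT L) τ χ = Pool.Agent.W519.G.ind (B1 A) τ χ := rfl
    have e2 : ind (⟨Ph2 A, ph2 A⟩ : CMT L) τ χ = Pool.Agent.W519.G.ind (B2 A) τ χ := rfl
    rw [e1, e2]
    linarith) D
  rw [Fin.sum_univ_three] at h
  change ((2 : ℤ) : ℂ) * (ld0 P A D χ).trace + ((-1 : ℤ) : ℂ) * (ld0 P (cmB ⟨Ph1 A, ph1 A⟩) D χ).trace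
    + ((-1 : ℤ) : ℂ) * (ld0 P (cmB ⟨Ph2 A, ph2 A⟩) D χ).trace = ((0 : ℤ) : ℂ) * _ at h
  push_cast at h
  linear_combination h / 2

/-- the CM type is determined by the periods -/
theorem detL (hW : Wuestholz P) : DetL (pl P) := by
  intro Φ Ψ h
  have hA := cmB_av P Φ
  have hB := cmB_av P Ψ
  have h1 := hW.hom (cmB Φ) (cmB Ψ) hA hB 1 (fun χ => by
    refine per_of_ld hA hB (N := (1 : Matrix (Fin 2) (Fin 2) L).map χ)
      (fun p q => emb_alg _ _) fun D => ?_
    have e1 : (1 : Matrix (Fin 2) (Fin 2) L).map χ = 1 := by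
      ext i j
      fin_cases i <;> fin_cases j <;> simp
    have h2 : lg D (cp P Φ χ) = lg D (cp P Ψ χ) := by
      have h3 := dv_alg D (h χ)
      rw [show (pl P).per Φ χ = cp P Φ χ from rfl, show (pl P).per Ψ χ = cp P Ψ χ from rfl,
        dv_div D (cp_ne P _ _), div_eq_zero_iff] at h3
      rcases h3 with h3 | h3
      · rw [lg, lg, div_eq_div_iff (cp_ne P _ _) (cp_ne P _ _)]
        linear_combination h3
      · exact absurd h3 (pow_ne_zero _ (cp_ne P _ _))
    rw [cp_lg, cp_lg] at h2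
    rw [e1, Matrix.mul_one, Matrix.one_mul, ld0_sq hB (cmsq_isSquare _ _),
      ld0_sq hA (cmsq_isSquare _ _), h2])
  have h2 : ∀ χ, (cmB Ψ).D χ = (cmB Φ).D χ := by
    intro χ
    have h3 := h1 χ
    have e1 : (1 : Matrix (Fin 2) (Fin 2) L).map χ = 1 := by
      ext i j
      fin_cases i <;> fin_cases j <;> simp
    rw [e1, Matrix.mul_one, Matrix.one_mul] at h3
    exact h3
  apply Subtype.ext
  ext χ
  constructor
  · intro hχ
    by_contra hc
    have h3 := h2 χ
    rw [cmB, cmB, (cmsq_D Φ.1 Φ.2 χ).1 hχ, (cmsq_D Ψ.1 Ψ.2 χ).2 hc] at h3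
    exact one_ne_neg h3.symm
  · intro hχ
    by_contra hc
    have h3 := h2 χ
    rw [cmB, cmB, (cmsq_D Φ.1 Φ.2 χ).2 hc, (cmsq_D Ψ.1 Ψ.2 χ).1 hχ] at h3
    exact one_ne_neg h3

end

end Pool.Agent.W519.E
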