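import Pool.Agent.W519.E.Defs

/-!
# Abelian varieties with multiplication by a CM field whose homology has rank two over the field:
# the Mumford-Tate group and the periods
-/

set_option autoImplicit false

namespace Pool.Agent.W519.E

open NumberField Matrix Pool.Agent.W519.Q

noncomputable section

variable {S : Type}

/-- the subspace is closed under commutators -/
def IsLie (W : Submodule ℂ (V S)) : Prop := ∀ x ∈ W, ∀ y ∈ W, x * y - y * x ∈ W

variable (L : Type) [Field L]

/-- the automorphisms of `ℂ` permute the pairs `(i, φ)` -/
def gS (I : Type) : (ℂ ≃+* ℂ) →* Equiv.Perm (I × (L →+* ℂ)) where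
  toFun σ :=
    { toFun := fun s => (s.1, (σ : ℂ →+* ℂ).comp s.2)
      invFun := fun s => (s.1, (σ.symm : ℂ →+* ℂ).comp s.2)
      left_inv := fun s => by
        refine Prod.ext rfl (RingHom.ext fun x => ?_)
        simp
      right_inv := fun s => by
        refine Prod.ext rfl (RingHom.ext fun x => ?_)
        simp }
  map_one' := by
    ext s
    · rfl
    · rfl
  map_mul' σ τ := by
    ext s
    · rfl
    · rfl

variable {L}
variable {I : Type}

/-- Let `X` be the product of the abelian varieties `A i`. This is the derivative of the cocharacter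
which defines the Hodge structure on `H_1(X)` and `ℚ(1)`: it is `1` on the parts of type `(-1, 0)`
and `(-1, -1)`, and zero on the part of type `(0, -1)`. -/
def dmu (A : I → HS L) : V (I × (L →+* ℂ)) := (1, fun s => (1 / 2 : ℂ) • (1 + (A s.1).D s.2))

/-- The Lie algebra (over the field of complex numbers) of the Mumford-Tate group of `X`: the
smallest Lie algebra which is defined over `ℚ` and contains the derivative of the cocharacter. -/
def mt (A : I → HS L) : Submodule ℂ (V (I × (L →+* ℂ))) :=
  sInf {W | IsRational (gS L I) W ∧ IsLie W ∧ dmu A ∈ W}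

/-- The periods of `X`: the number `2 π i`, and for every `i` and every complex embedding `φ` of `L`
the matrix of the periods of the `φ`-part of `H^1_dR(A i / ℚ̄)`. -/
def period (per : HS L → (L →+* ℂ) → Matrix (Fin 2) (Fin 2) ℂ) (A : I → HS L) :
    V (I × (L →+* ℂ)) := (2 * Real.pi * Complex.I, fun s => per (A s.1) s.2)

variable (L) [NumberField L]

/-- A rank two period system over `L`: the class of the abelian varieties with `H_1(A, ℚ) = L ^ 2`
which can be defined over the field `ℚ̄` of algebraic numbers, and their period matrices. For every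
complex embedding `φ` of `L` the `φ`-part of `H^1_dR(A / ℚ̄)` has dimension two, and `per A φ` is the
matrix of the integrals of a basis of it: the integrals of the two elements of the basis over the
element `x` of the homology `L ^ 2` are the components of the vector `per A φ * φ(x)`. -/
structure PerSys where
  /-- the abelian varieties which can be defined over the field of algebraic numbers -/
  IsAV : HS L → Prop
  /-- the period matrices -/
  per : HS L → (L →+* ℂ) → Matrix (Fin 2) (Fin 2) ℂ
  det_ne : ∀ A, IsAV A → ∀ φ, (per A φ).det ≠ 0
  /-- Hodge classes are de Rham-Betti classes, so that the logarithmic derivatives of the periods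
  belong to the Lie algebra of the Mumford-Tate group -/
  deligne : ∀ (I : Type) [Fintype I] (A : I → HS L), (∀ i, IsAV (A i)) →
    logSpace (period per A) ≤ mt A
  /-- abelian varieties of CM type can be defined over `ℚ̄` -/
  cm_av : ∀ A : HS L, A.IsSquare → IsAV A
  /-- so can the twists of `A` by quotients of two CM types of `L` -/
  twist : ∀ A A' : HS L, IsAV A → (∀ χ, A'.D χ = A.D χ ∨ (A.D χ = 1 ∧ A'.D χ = -1) ∨
    (A.D χ = -1 ∧ A'.D χ = 1)) → IsAV A'
  /-- and `A` with the action of `L` changed by an automorphism of `L` -/
  gal : ∀ A A' : HS L, IsAV A → ∀ γ : L ≃ₐ[ℚ] L,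
    (∀ χ : L →+* ℂ, A'.D χ = A.D (χ.comp (γ : L →+* L))) → IsAV A'

variable {L}

/-- The theorem of Wüstholz for the first homology groups, as de Rham-Betti objects with
multiplication by `L`: their homomorphisms are the homomorphisms of abelian varieties, and they are
semisimple. -/
structure Wuestholz (P : PerSys L) : Prop where
  /-- a matrix over `L` which maps the homology of `A` to the homology of `B` and the de Rham
  homology of `A` to that of `B`, for all embeddings of `L`, is a homomorphism -/
  hom : ∀ A B : HS L, P.IsAV A → P.IsAV B → ∀ T : Matrix (Fin 2) (Fin 2) L,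
    (∀ χ : L →+* ℂ, AlgM (P.per B χ * T.map χ * (P.per A χ)⁻¹)) → IsHom A B T
  /-- if the `L`-subspace generated by `x` is a de Rham-Betti subobject (at every embedding, it
  generates a line defined over `ℚ̄` in the de Rham homology), then it has a complement that is a
  de Rham-Betti subobject -/
  sub : ∀ A : HS L, P.IsAV A → ∀ x : Fin 2 → L, x ≠ 0 →
    (∀ χ : L →+* ℂ, ∃ (c : ℂ) (u : Fin 2 → ℂ), AlgV u ∧ (P.per A χ *ᵥ fun a => χ (x a)) = c • u) →
    ∃ x' : Fin 2 → L, LinearIndependent L ![x, x'] ∧
      ∀ χ : L →+* ℂ, ∃ (c : ℂ) (u : Fin 2 → ℂ), AlgV u ∧ (P.per A χ *ᵥ fun a => χ (x' a)) = c • u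

end

end Pool.Agent.W519.E
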