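import Pool.Agent.W519.Q.Cmsq
import Pool.Agent.W519.E.Sys

/-!
# Lie algebras defined over the rational numbers
-/

set_option autoImplicit false
set_option linter.unusedSectionVars false

namespace Pool.Agent.W519.E

open NumberField Pool.Agent.H204R3.CM Pool.Agent.W547.KB Pool.Agent.W537.PC Matrix
open Pool.Agent.W519.Q hiding Kb sL mem_sL NoEig subdirect PeriodSystem Semisimple SemisimpleAt

noncomputable section

variable {L : Type} [Field L] [NumberField L] [IsCMField L]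
variable {I : Type} [Fintype I]
variable [IsGalois ℚ L]

/-- a Lie algebra defined over `ℚ` which preserves the polarizations up to scalars, and whose
components at the abelian varieties of CM type are scalars -/
structure LSys (A : I → HS L) (Sp : I → Matrix (Fin 2) (Fin 2) L) where
  S : Submodule ℂ (V (Sl I L))
  brk : IsLie S
  pol : ∀ x ∈ S, ∀ (i : I) (φ : L →+* ℂ), (x.2 (i, φ))ᵀ * (Sp i).map φ +
    (Sp i).map φ * x.2 (i, ComplexEmbedding.conjugate φ) = x.1 • (Sp i).map φ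
  sq : ∀ x ∈ S, ∀ i, (A i).IsSquare → ∀ φ, tl (x.2 (i, φ)) = 0
  gal : IsRational (gS L I) S
  lam : ∀ (lam : ℂ →ₗ[Kb] Kb), ∀ x ∈ S, (((lam x.1 : Kb) : ℂ), up ℂ (lamM lam x.2)) ∈ S

variable {A : I → HS L} {Sp : I → Matrix (Fin 2) (Fin 2) L} (b : LSys A Sp)

/-- membership -/
def MM (Y : Sl I L → M2 ℂ) (y : ℂ) : Prop := (y, Y) ∈ b.S

variable {b}

lemma MM.add {Y Z : Sl I L → M2 ℂ} {y z : ℂ} (hY : MM b Y y) (hZ : MM b Z z) :
    MM b (Y + Z) (y + z) := b.S.add_mem hY hZ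

lemma MM.smul (r : ℂ) {Y : Sl I L → M2 ℂ} {y : ℂ} (hY : MM b Y y) : MM b (r • Y) (r * y) :=
  b.S.smul_mem r hY

lemma MM.zero : MM b 0 0 := b.S.zero_mem

lemma MM.brk {Y Z : Sl I L → M2 ℂ} {y z : ℂ} (hY : MM b Y y) (hZ : MM b Z z) :
    MM b (brS Y Z) 0 := by
  have h := b.brk _ hY _ hZ
  have e : ((y, Y) : V (Sl I L)) * (z, Z) - (z, Z) * (y, Y) = ((0 : ℂ), brS Y Z) := by
    refine Prod.ext ?_ (funext fun s => ?_)
    · change y * z - z * y = 0
      ring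
    · rfl
  rw [e] at h
  exact h

lemma MM.pol {Y : Sl I L → M2 ℂ} {y : ℂ} (hY : MM b Y y) (i : I) (φ : L →+* ℂ) :
    (Y (i, φ))ᵀ * (Sp i).map φ + (Sp i).map φ * Y (i, ComplexEmbedding.conjugate φ) =
      y • (Sp i).map φ := b.pol _ hY i φ

lemma MM.sq {Y : Sl I L → M2 ℂ} {y : ℂ} (hY : MM b Y y) (i : I) (hi : (A i).IsSquare)
    (φ : L →+* ℂ) : tl (Y (i, φ)) = 0 := b.sq _ hY i hi φ

lemma MM.gal {Y : Sl I L → M2 ℂ} {y : ℂ} (hY : MM b Y y) (τ : ℂ ≃+* ℂ) :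
    MM b (galM τ Y) (τ y) := b.gal τ _ hY

lemma MM.lam (lam : ℂ →ₗ[Kb] Kb) {Y : Sl I L → M2 ℂ} {y : ℂ} (hY : MM b Y y) :
    MM b (up ℂ (lamM lam Y)) (lam y : Kb) := b.lam lam _ hY

variable (b)

/-- the Lie algebra over the field of algebraic numbers -/
def sL : Submodule Kb (Sl I L → M2 Kb) where
  carrier := {Y | MM b (up ℂ Y) 0 ∧ ∀ s, (Y s).trace = 0}
  zero_mem' := ⟨by
    rw [up_zero]
    exact MM.zero, fun s => by simp⟩
  add_mem' := by
    rintro Y Z ⟨hY, hY'⟩ ⟨hZ, hZ'⟩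
    refine ⟨?_, fun s => by rw [Pi.add_apply, Matrix.trace_add, hY', hZ', add_zero]⟩
    have : up ℂ (Y + Z) = up ℂ Y + up ℂ Z := by
      funext s
      ext i j
      simp [up]
    rw [this, ← add_zero (0 : ℂ)]
    exact hY.add hZ
  smul_mem' := by
    rintro r Y ⟨hY, hY'⟩
    refine ⟨?_, fun s => by rw [Pi.smul_apply, Matrix.trace_smul, hY', smul_zero]⟩
    have : up ℂ (r • Y) = (r : ℂ) • up ℂ Y := by
      funext s
      ext i j
      simp [up]
    rw [this, ← mul_zero (r : ℂ)]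
    exact hY.smul _

variable {b}

lemma mem_sL {Y : Sl I L → M2 Kb} :
    Y ∈ sL b ↔ MM b (up ℂ Y) 0 ∧ ∀ s, (Y s).trace = 0 := Iff.rfl

/-- no common eigenvector at the slot `s` -/
def NoEig (b : LSys A Sp) (s : Sl I L) : Prop :=
  ¬ ∃ v : Fin 2 → Kb, v ≠ 0 ∧ ∀ (Y : Sl I L → M2 Kb) (y : Kb), MM b (up ℂ Y) y →
    ∃ μ : Kb, Y s *ᵥ v = μ • v

/-- the components of the Lie algebra -/
theorem subdirect (h : ∀ s : Sl I L, ¬ (A s.1).IsSquare → NoEig b s) :
    Subdirect (sL b) (fun s => ¬ (A s.1).IsSquare) := by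
  refine ⟨fun Y hY Z hZ => ?_, fun Y hY => hY.2, fun s hs Z hZ => ?_, fun s hs Y hY => ?_⟩
  · refine ⟨?_, fun s => trace_br _ _⟩
    rw [up_brS]
    exact hY.1.brk hZ.1
  · let G : Submodule Kb (M2 Kb) :=
      { carrier := {Z | ∃ (Y : Sl I L → M2 Kb) (y : Kb), MM b (up ℂ Y) y ∧ Y s = Z}
        zero_mem' := ⟨0, 0, by
          rw [up_zero]
          exact MM.zero, rfl⟩
        add_mem' := by
          rintro _ _ ⟨Y, y, hY, rfl⟩ ⟨Z, z, hZ, rfl⟩
          refine ⟨Y + Z, y + z, ?_, rfl⟩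
          have : up ℂ (Y + Z) = up ℂ Y + up ℂ Z := by
            funext s
            ext i j
            simp [up]
          rw [this]
          push_cast
          exact hY.add hZ
        smul_mem' := by
          rintro r _ ⟨Y, y, hY, rfl⟩
          refine ⟨r • Y, r * y, ?_, rfl⟩
          have : up ℂ (r • Y) = (r : ℂ) • up ℂ Y := by
            funext s
            ext i j
            simp [up]
          rw [this]
          push_cast
          exact hY.smul _ }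
    have hG : ∀ X ∈ G, ∀ X' ∈ G, br X X' ∈ G := by
      rintro _ ⟨Y, y, hY, rfl⟩ _ ⟨Z, z, hZ, rfl⟩
      refine ⟨brS Y Z, 0, ?_, rfl⟩
      rw [up_brS]
      exact hY.brk hZ
    rcases dichotomy G hG with ⟨v, hv, hev⟩ | hall
    · exact absurd ⟨v, hv, fun Y y hY => hev _ ⟨Y, y, hY, rfl⟩⟩ (h s hs)
    · have h1 := hall Z hZ
      have h2 : Submodule.span Kb {W | ∃ X ∈ G, ∃ Y ∈ G, W = br X Y} ≤
          (sL b).map (LinearMap.proj s) := by
        rw [Submodule.span_le]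
        rintro _ ⟨_, ⟨Y, y, hY, rfl⟩, _, ⟨Z, z, hZ, rfl⟩, rfl⟩
        refine ⟨brS Y Z, ⟨?_, fun s => trace_br _ _⟩, rfl⟩
        rw [up_brS]
        exact hY.brk hZ
      obtain ⟨Y, hY, hYZ⟩ := h2 h1
      exact ⟨Y, hY, hYZ⟩
  · have hs' : (A s.1).IsSquare := not_not.1 hs
    exact up_tl Y s (hY.1.sq s.1 hs' s.2) (hY.2 s)

end

end Pool.Agent.W519.E
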