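import Pool.Agent.W519.E.HSt

/-!
# Twists, and the theorem of Wuestholz for homomorphisms
-/

set_option autoImplicit false
set_option linter.unusedSectionVars false

namespace Pool.Agent.W519.E

open NumberField Pool.Agent.H204R3.CM Pool.Agent.W547.KB Pool.Agent.W537.PC Matrix
open Pool.Agent.W519.Q hiding Kb sL mem_sL NoEig subdirect PeriodSystem Semisimple SemisimpleAt
  HomHodge IC inter_ic pm ld pm_mul_ld ld_inj ld_pol ld_sq EV COM ev_of EndHodge no_split noEig
  comm_all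

noncomputable section

variable {L : Type} [Field L] [NumberField L] [IsCMField L]
variable {I : Type} [Fintype I]
variable [IsGalois ℚ L]
variable {A : I → HS L} {Sp : I → Matrix (Fin 2) (Fin 2) L} {b : LSys A Sp}

/-- relations are unique up to scalars -/
lemma IC.unique (hsub : Subdirect (sL b) (fun s => ¬ (A s.1).IsSquare))
    {s t : Sl I L} (hs : ¬ (A s.1).IsSquare) {N N' : M2 ℂ} (hN : IC b s t N)
    (hN' : IC b s t N') : ∃ r : ℂ, N' = r • N := by
  have hu : IsUnit N.det := isUnit_iff_ne_zero.2 hN.det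
  have h1 := comm_all hsub hs (C := N⁻¹ * N') (by
    intro W hW
    have a1 := hN.eq _ hW.1 (up_trace hW.2)
    have a2 := hN'.eq _ hW.1 (up_trace hW.2)
    calc N⁻¹ * N' * up ℂ W s = N⁻¹ * (up ℂ W t * N') := by rw [Matrix.mul_assoc, a2]
      _ = N⁻¹ * (up ℂ W t * N) * (N⁻¹ * N') := by
        rw [Matrix.mul_assoc, Matrix.mul_assoc, ← Matrix.mul_assoc N, Matrix.mul_nonsing_inv _ hu,
          Matrix.one_mul]
      _ = up ℂ W s * (N⁻¹ * N') := by
        rw [a1, ← Matrix.mul_assoc N⁻¹ N, Matrix.nonsing_inv_mul _ hu, Matrix.one_mul])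
  refine ⟨(N⁻¹ * N') 0 0, ?_⟩
  have h2 := congrArg (fun X => N * X) h1
  simp only [Matrix.mul_smul, Matrix.mul_one] at h2
  rw [← Matrix.mul_assoc, Matrix.mul_nonsing_inv _ hu, Matrix.one_mul] at h2
  exact h2

/-- relations are defined over `L`, up to scalars -/
theorem IC.desc (hsub : Subdirect (sL b) (fun s => ¬ (A s.1).IsSquare)) {i j : I}
    {γ : L ≃ₐ[ℚ] L} (hs : ¬ (A i).IsSquare) {φ : L →+* ℂ} {N : M2 ℂ}
    (hN : IC b (i, φ) (j, gc γ φ) N) :
    ∃ (a : ℂ) (T : Matrix (Fin 2) (Fin 2) L), N = a • T.map φ ∧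
      ∀ χ, IC b (i, χ) (j, gc γ χ) (T.map χ) := by
  have hN0 : N ≠ 0 := by
    intro h0
    apply hN.det
    rw [h0, Matrix.det_fin_two]
    simp
  obtain ⟨a, x, ha, haa, hx⟩ := descent φ (fun p : Fin 2 × Fin 2 => N p.1 p.2)
    (fun p => hN.alg _ _) (by
      intro h0
      apply hN0
      ext p q
      exact congrFun h0 (p, q)) (by
      intro τ hτ
      have h1 := hN.gal τ
      have e1 : actS τ (i, φ) = (i, φ) := by rw [actS, hτ]
      have e2 : actS τ (j, gc γ φ) = (j, gc γ φ) := by rw [actS, gc_act, hτ]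
      rw [e1, e2] at h1
      obtain ⟨r, hr⟩ := hN.unique hsub hs h1
      exact ⟨r, fun p => congrFun (congrFun hr p.1) p.2⟩)
  let T : Matrix (Fin 2) (Fin 2) L := Matrix.of fun p q => x (p, q)
  have hNT : N = a • T.map φ := by
    ext p q
    exact hx (p, q)
  refine ⟨a, T, hNT, fun χ => ?_⟩
  have hT : IC b (i, φ) (j, gc γ φ) (T.map φ) := by
    refine ⟨fun p q => emb_alg _ _, fun h0 => hN.det ?_, fun V hV htr => ?_⟩
    · rw [hNT, Matrix.det_smul, h0, mul_zero]
    · have h1 := hN.eq V hV htr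
      rw [hNT, Matrix.mul_smul, Matrix.smul_mul] at h1
      exact smul_right_injective _ ha h1
  obtain ⟨τ, rfl⟩ := exists_act φ χ
  exact hT.gal τ

variable {P : PerSys L}

lemma add_tl (M : M2 ℂ) : M = tl M + (M.trace / 2) • (1 : M2 ℂ) := by
  rw [tl]
  abel

/-- the relations are satisfied by the Hodge structures -/
theorem IC.hodge (hW : Wuestholz P)
    (hsub : Subdirect (sL b) (fun s => ¬ (A s.1).IsSquare))
    (hA : ∀ i, P.IsAV (A i)) (hld : ∀ D : Dv, MM b (ld P A D) (D tau / tau))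
    (hS : ∀ i, IsPol L (A i).D (Sp i)) {s t : Sl I L} (hs : ¬ (A s.1).IsSquare)
    {N : M2 ℂ} (hN : IC b s t N) :
    tl ((A t.1).D t.2) * N = N * tl ((A s.1).D s.2) := by
  obtain ⟨i, φ⟩ := s
  obtain ⟨j, ψ⟩ := t
  obtain ⟨γ, rfl⟩ := comp_surjective φ ψ
  change tl ((A j).D (gc γ φ)) * N = N * tl ((A i).D φ)
  have hN0 : IC b (i, φ) (j, gc γ φ) N := hN
  -- parity for all embeddings
  have hpar : ∀ χ, rk (A i) χ = 1 ↔ rk (A j) (gc γ χ) = 1 := by
    intro χ
    obtain ⟨τ, rfl⟩ := exists_act φ χ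
    exact (hN0.gal τ).parity hsub hS hs
  obtain ⟨a, T, hNT, hT⟩ := hN0.desc hsub hs
  -- the twist
  set A' : HS L := twHS (A i) (isT1 hpar) (isT2 hpar) with hA'def
  set A'' : HS L := galHS (A j) γ with hA''def
  have hD' : ∀ χ, A'.D χ = sg (T1 (A i) (A j) γ) (T2 (A i) (A j) γ) χ • (A i).D χ := fun χ => rfl
  have hsg : ∀ χ, (rk (A i) χ = rk (A j) (gc γ χ) →
      sg (T1 (A i) (A j) γ) (T2 (A i) (A j) γ) χ = 1) ∧ (rk (A i) χ ≠ rk (A j) (gc γ χ) →
      sg (T1 (A i) (A j) γ) (T2 (A i) (A j) γ) χ = -1) := by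
    intro χ
    constructor
    · intro heq
      apply sg_pos
      rw [mem_T1, mem_T2, heq]
      constructor
      · rintro (⟨h3, h4⟩ | h3)
        · rw [h3] at h4
          norm_num at h4
        · exact Or.inr h3
      · rintro (⟨h3, h4⟩ | h3)
        · rw [h3] at h4
          norm_num at h4
        · exact Or.inr h3
    · intro hne
      apply sg_neg
      rw [mem_T1, mem_T2]
      intro hiff
      rcases pair_cases hpar χ with ⟨h3, h4⟩ | ⟨h3, h4⟩ | ⟨h3, h4⟩ | ⟨h3, h4⟩ | ⟨h3, h4⟩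
      · exact hne (h3.trans h4.symm)
      · rcases hiff.1 (Or.inl ⟨h3, h4⟩) with ⟨h5, h6⟩ | h5
        · rw [h3] at h5
          norm_num at h5
        · exact hne h5.1
      · rcases hiff.2 (Or.inl ⟨h3, h4⟩) with ⟨h5, h6⟩ | h5
        · rw [h3] at h5
          norm_num at h5
        · exact hne h5.1
      · exact hne (h3.trans h4.symm)
      · exact hne (h3.trans h4.symm)
  have hDeq : ∀ χ, rk (A i) χ = rk (A j) (gc γ χ) → A'.D χ = (A i).D χ := by
    intro χ heq
    rw [hD', (hsg χ).1 heq, one_smul]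
  have hDne : ∀ χ, rk (A i) χ ≠ rk (A j) (gc γ χ) → A'.D χ = -(A i).D χ := by
    intro χ hne
    rw [hD', (hsg χ).2 hne, neg_smul, one_smul]
  have hrk' : ∀ χ, rk A' χ = rk (A j) (gc γ χ) := by
    intro χ
    by_cases heq : rk (A i) χ = rk (A j) (gc γ χ)
    · rw [← heq]
      unfold rk
      rw [hDeq χ heq]
    · rcases pair_cases hpar χ with ⟨h3, h4⟩ | ⟨h3, h4⟩ | ⟨h3, h4⟩ | ⟨h3, h4⟩ | ⟨h3, h4⟩
      · exact absurd (h3.trans h4.symm) heq
      · rw [h4]
        refine rk_one ?_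
        rw [hDne χ heq, D_of_zero h3, neg_neg]
      · rw [h4]
        refine rk_neg ?_
        rw [hDne χ heq, D_of_two h3]
      · exact absurd (h3.trans h4.symm) heq
      · exact absurd (h3.trans h4.symm) heq
  have hflip : ∀ χ, A'.D χ = (A i).D χ ∨ ((A i).D χ = 1 ∧ A'.D χ = -1) ∨
      ((A i).D χ = -1 ∧ A'.D χ = 1) := by
    intro χ
    by_cases heq : rk (A i) χ = rk (A j) (gc γ χ)
    · exact Or.inl (hDeq χ heq)
    · rcases pair_cases hpar χ with ⟨h3, h4⟩ | ⟨h3, h4⟩ | ⟨h3, h4⟩ | ⟨h3, h4⟩ | ⟨h3, h4⟩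
      · exact absurd (h3.trans h4.symm) heq
      · refine Or.inr (Or.inr ⟨D_of_zero h3, ?_⟩)
        rw [hDne χ heq, D_of_zero h3, neg_neg]
      · refine Or.inr (Or.inl ⟨D_of_two h3, ?_⟩)
        rw [hDne χ heq, D_of_two h3]
      · exact absurd (h3.trans h4.symm) heq
      · exact absurd (h3.trans h4.symm) heq
  have hA' : P.IsAV A' := P.twist (A i) A' (hA i) hflip
  have hA'' : P.IsAV A'' := P.gal (A j) A'' (hA j) γ fun χ => rfl
  have htl : ∀ χ, tl (A'.D χ) = tl ((A i).D χ) := by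
    intro χ
    rcases hflip χ with h | ⟨h1, h2⟩ | ⟨h1, h2⟩
    · rw [h]
    · rw [h1, h2, tl_one, tl_neg_one]
    · rw [h1, h2, tl_one, tl_neg_one]
  have hhom : IsHom A' A'' T := by
    refine hW.hom A' A'' hA' hA'' T fun χ => per_of_ld hA' hA'' (fun p q => emb_alg _ _) fun D => ?_
    have hs1 : ¬ (A ((i, χ) : Sl I L).1).IsSquare := hs
    obtain ⟨r, hr⟩ := (hT χ).scalar hsub hs1 (hld D)
    change ld0 P (A j) D (gc γ χ) * T.map χ =
      T.map χ * (ld0 P (A i) D χ + r • (1 : M2 ℂ)) at hr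
    have hdT : (T.map χ).det ≠ 0 := (hT χ).det
    have hu : IsUnit (T.map χ).det := isUnit_iff_ne_zero.2 hdT
    -- the scalar
    have h1 : (ld0 P (A j) D (gc γ χ)).trace = (ld0 P (A i) D χ).trace + 2 * r := by
      have h2 : ld0 P (A j) D (gc γ χ) =
          T.map χ * (ld0 P (A i) D χ + r • (1 : M2 ℂ)) * (T.map χ)⁻¹ := by
        rw [← hr, Matrix.mul_assoc, Matrix.mul_nonsing_inv _ hu, Matrix.mul_one]
      rw [h2, Matrix.trace_mul_comm, ← Matrix.mul_assoc, Matrix.nonsing_inv_mul _ hu,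
        Matrix.one_mul, Matrix.trace_add, Matrix.trace_smul, Matrix.trace_one]
      simp
      ring
    have h3 : (ld0 P A' D χ).trace = (ld0 P (A j) D (gc γ χ)).trace := by
      have h4 := tr_rel (P := P) (A := ![A', A j]) (fun k => by
        fin_cases k
        · exact hA'
        · exact hA j) ![χ, gc γ χ] ![1, -1] 0 (fun τ => by
          rw [Fin.sum_univ_two]
          change 1 * rk A' (act τ χ) + (-1) * rk (A j) (act τ (gc γ χ)) = 0
          rw [hrk', gc_act]
          ring) D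
      rw [Fin.sum_univ_two] at h4
      change ((1 : ℤ) : ℂ) * (ld0 P A' D χ).trace +
        (((-1 : ℤ)) : ℂ) * (ld0 P (A j) D (gc γ χ)).trace = ((0 : ℤ) : ℂ) * _ at h4
      push_cast at h4
      linear_combination h4
    have h5 : ld0 P A' D χ = ld0 P (A i) D χ + r • (1 : M2 ℂ) := by
      rw [add_tl (ld0 P A' D χ), tl_twist (hA i) hA' htl D χ, h3, h1]
      conv_rhs => rw [add_tl (ld0 P (A i) D χ)]
      rw [add_assoc, ← add_smul]
      congr 2
      ring
    rw [ld_gal (hA j) hA'' γ (fun χ => rfl) D χ, h5]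
    exact hr
  have hcomm : (A j).D (gc γ φ) * N = N * A'.D φ := by
    have h1 := hhom φ
    rw [hNT, Matrix.mul_smul, Matrix.smul_mul]
    congr 1
  have h6 := tl_rel (r := 0) hN0.det (X := A'.D φ) (X' := (A j).D (gc γ φ)) (by
    rw [hcomm, zero_smul, add_zero])
  rw [htl] at h6
  exact h6

end

end Pool.Agent.W519.E
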